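import Mathlib

set_option autoImplicit false

open MeasureTheory Metric Set
open scoped ENNReal

namespace Pool.Agent.K4H46.TF

/-- the integral of the Newton kernel over a set of given area -/
lemma lint_inv_le {E : Set ℂ} (hE : MeasurableSet E) {A : ℝ} (hA : 0 < A)
    (hv : volume E ≤ ENNReal.ofReal A) (a : ℂ) :
    ∫⁻ z in E, ENNReal.ofReal (‖z - a‖⁻¹) ≤ ENNReal.ofReal (2 * √(Real.pi * A)) := by
  have hpi := Real.pi_pos
  rw [lintegral_eq_lintegral_meas_lt (volume.restrict E)
    (Filter.Eventually.of_forall fun z => by positivity)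
    (by fun_prop)]
  obtain ⟨s, hs⟩ : ∃ s : ℝ, s = √(Real.pi / A) := ⟨_, rfl⟩
  have hs0 : 0 < s := by rw [hs]; positivity
  have h1 : ∀ t : ℝ, 0 < t → (volume.restrict E) {z : ℂ | t < ‖z - a‖⁻¹} ≤
      ENNReal.ofReal (Real.pi * t ^ (-2 : ℝ)) := by
    intro t ht
    calc (volume.restrict E) {z : ℂ | t < ‖z - a‖⁻¹} ≤ volume {z : ℂ | t < ‖z - a‖⁻¹} :=
          Measure.restrict_apply_le _ _
      _ ≤ volume (ball a t⁻¹) := by
          apply measure_mono
          intro z hz
          have hz' : t < ‖z - a‖⁻¹ := hz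
          have hz0 : 0 < ‖z - a‖ := by
            by_contra hcon
            have : ‖z - a‖ = 0 := le_antisymm (not_lt.1 hcon) (norm_nonneg _)
            rw [this, inv_zero] at hz'
            linarith
          rw [mem_ball, dist_eq_norm]
          exact (lt_inv_comm₀ ht hz0).1 hz'
      _ = ENNReal.ofReal (Real.pi * t ^ (-2 : ℝ)) := by
          rw [Complex.volume_ball, ← ENNReal.ofReal_pow (by positivity),
            show (NNReal.pi : ℝ≥0∞) = ENNReal.ofReal Real.pi from by
              rw [← NNReal.coe_real_pi, ENNReal.ofReal_coe_nnreal],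
            ← ENNReal.ofReal_mul (by positivity)]
          congr 1
          rw [Real.rpow_neg ht.le, inv_pow, mul_comm]
          norm_num
  have h2 : ∀ t : ℝ, (volume.restrict E) {z : ℂ | t < ‖z - a‖⁻¹} ≤ ENNReal.ofReal A := by
    intro t
    refine le_trans (measure_mono (subset_univ _)) ?_
    rw [Measure.restrict_apply_univ]
    exact hv
  rw [← Ioc_union_Ioi_eq_Ioi hs0.le, lintegral_union measurableSet_Ioi
    (disjoint_left.2 fun x hx hx' => not_lt.2 hx.2 hx')]
  have h3 : ∫⁻ t in Ioc 0 s, (volume.restrict E) {z : ℂ | t < ‖z - a‖⁻¹} ≤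
      ENNReal.ofReal (A * s) := by
    calc _ ≤ ∫⁻ t in Ioc 0 s, ENNReal.ofReal A := lintegral_mono fun t => h2 t
      _ = ENNReal.ofReal (A * s) := by
          rw [setLIntegral_const, Real.volume_Ioc, sub_zero, ← ENNReal.ofReal_mul hA.le]
  have h4 : ∫⁻ t in Ioi s, (volume.restrict E) {z : ℂ | t < ‖z - a‖⁻¹} ≤
      ENNReal.ofReal (Real.pi / s) := by
    calc _ ≤ ∫⁻ t in Ioi s, ENNReal.ofReal (Real.pi * t ^ (-2 : ℝ)) := by
          apply setLIntegral_mono' measurableSet_Ioi
          intro t ht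
          exact h1 t (hs0.trans ht)
      _ = ENNReal.ofReal (∫ t in Ioi s, Real.pi * t ^ (-2 : ℝ)) := by
          rw [ofReal_integral_eq_lintegral_ofReal]
          · exact (integrableOn_Ioi_rpow_of_lt (by norm_num) hs0).const_mul _
          · rw [Filter.EventuallyLE, ae_restrict_iff' measurableSet_Ioi]
            refine Filter.Eventually.of_forall fun t ht => ?_
            have : (0 : ℝ) < t := hs0.trans ht
            show (0 : ℝ) ≤ _
            positivity
      _ = ENNReal.ofReal (Real.pi / s) := by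
          rw [integral_const_mul, integral_Ioi_rpow_of_lt (by norm_num) hs0]
          congr 1
          norm_num
          rw [Real.rpow_neg_one]
          rfl
  refine (add_le_add h3 h4).trans ?_
  rw [← ENNReal.ofReal_add (by positivity) (by positivity)]
  apply ENNReal.ofReal_le_ofReal
  apply le_of_eq
  have hsq : s ^ 2 = Real.pi / A := by rw [hs]; exact Real.sq_sqrt (by positivity)
  have e1 : √(Real.pi * A) = A * s := by
    rw [Real.sqrt_eq_iff_mul_self_eq (by positivity) (by positivity)]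
    symm
    calc A * s * (A * s) = A ^ 2 * s ^ 2 := by ring
      _ = Real.pi * A := by rw [hsq]; field_simp
  have e2 : Real.pi / s = A * s := by
    rw [div_eq_iff hs0.ne']
    calc Real.pi = A * (Real.pi / A) := by field_simp
      _ = A * s * s := by rw [← hsq]; ring
  rw [e1, e2]; ring

lemma amgm {ι : Type*} [Fintype ι] [Nonempty ι] (x : ι → ℝ) (hx : ∀ i, 0 < x i) {δ : ℝ}
    (hδ : 0 < δ) (h : ∏ i, x i ≤ δ ^ Fintype.card ι) :
    δ⁻¹ ≤ (Fintype.card ι : ℝ)⁻¹ * ∑ i, (x i)⁻¹ := by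
  have hN : (0 : ℝ) < Fintype.card ι := by exact_mod_cast Fintype.card_pos
  have h1 := Real.geom_mean_le_arith_mean_weighted Finset.univ
    (fun _ : ι => (Fintype.card ι : ℝ)⁻¹) (fun i => (x i)⁻¹) (fun _ _ => by positivity)
    (by rw [Finset.sum_const, Finset.card_univ, nsmul_eq_mul]; field_simp)
    (fun i _ => (inv_pos.2 (hx i)).le)
  rw [← Finset.mul_sum] at h1
  refine le_trans ?_ h1
  have h2 : ∏ i, ((x i)⁻¹) ^ (Fintype.card ι : ℝ)⁻¹ = ((∏ i, x i)⁻¹) ^ (Fintype.card ι : ℝ)⁻¹ := by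
    rw [← Finset.prod_inv_distrib, ← Real.finsetProd_rpow _ _ fun i _ => (inv_pos.2 (hx i)).le]
  rw [h2]
  have h3 : δ⁻¹ = ((δ ^ Fintype.card ι)⁻¹) ^ (Fintype.card ι : ℝ)⁻¹ := by
    rw [← inv_pow, ← Real.rpow_natCast, ← Real.rpow_mul (by positivity),
      mul_inv_cancel₀ hN.ne', Real.rpow_one]
  rw [h3]
  apply Real.rpow_le_rpow (by positivity) _ (by positivity)
  exact inv_anti₀ (Finset.prod_pos fun i _ => hx i) h

/-- The area of the set where a product of distances is small (Polya's inequality up to a factor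
four). -/
theorem area_prod_le' {ι : Type*} [Fintype ι] [Nonempty ι] (a : ι → ℂ) {δ : ℝ} (hδ : 0 < δ)
    {E : Set ℂ} (hE : MeasurableSet E) (hfin : volume E ≠ ⊤)
    (h : ∀ z ∈ E, ∏ i, ‖z - a i‖ ≤ δ ^ Fintype.card ι) :
    volume E ≤ ENNReal.ofReal (4 * Real.pi * δ ^ 2) := by
  have hN : (0 : ℝ) < Fintype.card ι := by exact_mod_cast Fintype.card_pos
  obtain ⟨A, hA⟩ : ∃ A : ℝ, A = (volume E).toReal := ⟨_, rfl⟩
  have hA' : volume E = ENNReal.ofReal A := by rw [hA, ENNReal.ofReal_toReal hfin]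
  rcases (show 0 ≤ A by rw [hA]; exact ENNReal.toReal_nonneg).eq_or_lt with h0 | h0
  · rw [hA', ← h0]; simp
  have h1 : ENNReal.ofReal (A * δ⁻¹) ≤ ENNReal.ofReal (2 * √(Real.pi * A)) := by
    calc ENNReal.ofReal (A * δ⁻¹) = ∫⁻ z in E, ENNReal.ofReal δ⁻¹ := by
          rw [setLIntegral_const, hA', mul_comm A, ENNReal.ofReal_mul (by positivity)]
      _ ≤ ∫⁻ z in E, ENNReal.ofReal ((Fintype.card ι : ℝ)⁻¹) *
            ∑ i, ENNReal.ofReal (‖z - a i‖⁻¹) := by
          apply lintegral_mono_ae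
          rw [ae_restrict_iff' hE]
          have hcount : ∀ᵐ z : ℂ, ∀ i, z ≠ a i := by
            rw [ae_all_iff]
            intro i
            exact Measure.ae_ne volume (a i)
          filter_upwards [hcount] with z hz hzE
          rw [← ENNReal.ofReal_sum_of_nonneg (fun i _ => by positivity),
            ← ENNReal.ofReal_mul (by positivity)]
          apply ENNReal.ofReal_le_ofReal
          exact amgm (fun i => ‖z - a i‖) (fun i => norm_pos_iff.2 (sub_ne_zero.2 (hz i))) hδ
            (h z hzE)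
      _ = ENNReal.ofReal ((Fintype.card ι : ℝ)⁻¹) *
            ∑ i, ∫⁻ z in E, ENNReal.ofReal (‖z - a i‖⁻¹) := by
          rw [lintegral_const_mul _ (by fun_prop), lintegral_finsetSum _ (fun i _ => by fun_prop)]
      _ ≤ ENNReal.ofReal ((Fintype.card ι : ℝ)⁻¹) *
            ∑ i : ι, ENNReal.ofReal (2 * √(Real.pi * A)) := by
          gcongr with i _
          exact lint_inv_le hE h0 hA'.le (a i)
      _ = ENNReal.ofReal (2 * √(Real.pi * A)) := by
          rw [Finset.sum_const, Finset.card_univ, nsmul_eq_mul, ← mul_assoc,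
            ← ENNReal.ofReal_natCast, ← ENNReal.ofReal_mul (by positivity),
            inv_mul_cancel₀ hN.ne', ENNReal.ofReal_one, one_mul]
  have h2 : A * δ⁻¹ ≤ 2 * √(Real.pi * A) := by
    rwa [ENNReal.ofReal_le_ofReal_iff (by positivity)] at h1
  rw [hA']
  apply ENNReal.ofReal_le_ofReal
  have h3 : (A * δ⁻¹) ^ 2 ≤ (2 * √(Real.pi * A)) ^ 2 := by
    apply pow_le_pow_left₀ (by positivity) h2
  rw [mul_pow, mul_pow, Real.sq_sqrt (by positivity [Real.pi_pos])] at h3
  have h4 : A ^ 2 ≤ (4 * Real.pi * δ ^ 2) * A := by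
    have h5 : A ^ 2 = A ^ 2 * δ⁻¹ ^ 2 * δ ^ 2 := by field_simp
    rw [h5]
    have h6 := mul_le_mul_of_nonneg_right h3 (sq_nonneg δ)
    nlinarith [h6]
  have h7 : A * A ≤ (4 * Real.pi * δ ^ 2) * A := by rw [← sq]; exact h4
  exact le_of_mul_le_mul_right h7 h0

/-- Multiset form. -/
theorem area_prod_le (s : Multiset ℂ) (hs : 0 < s.card) {δ : ℝ} (hδ : 0 < δ)
    {E : Set ℂ} (hE : MeasurableSet E) (hfin : volume E ≠ ⊤)
    (h : ∀ z ∈ E, (s.map fun a => ‖z - a‖).prod ≤ δ ^ s.card) :
    volume E ≤ ENNReal.ofReal (4 * Real.pi * δ ^ 2) := by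
  induction s using Quot.inductionOn with
  | h l =>
    have hl : 0 < l.length := by simpa using hs
    have : Nonempty (Fin l.length) := ⟨⟨0, hl⟩⟩
    apply area_prod_le' (fun i : Fin l.length => l[i.1]) hδ hE hfin
    intro z hz
    have h1 := h z hz
    rw [Fin.prod_univ_fun_getElem l (fun a => ‖z - a‖), Fintype.card_fin]
    simpa using h1

end Pool.Agent.K4H46.TF
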