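import Mathlib

set_option autoImplicit false

open Filter Topology Polynomial MeasureTheory Metric

namespace Pool.Agent.K4H46.TF

/-- the critical orbit as polynomials in the critical value -/
noncomputable def G (Q : ℂ[X]) : ℕ → ℂ[X]
  | 0 => X
  | n + 1 => Q.comp (G Q n) + X

lemma G_eval (Q : ℂ[X]) (v : ℂ) (n : ℕ) :
    (G Q n).eval v = (fun z : ℂ => (Q + C v).eval z)^[n] v := by
  induction n with
  | zero => simp [G]
  | succ n ih =>
    rw [Function.iterate_succ_apply', ← ih]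
    simp [G]

lemma G_succ_eval (Q : ℂ[X]) (v : ℂ) (n : ℕ) :
    (G Q (n + 1)).eval v = Q.eval ((G Q n).eval v) + v := by
  simp [G]

lemma G_monic {Q : ℂ[X]} {d : ℕ} (hd : 2 ≤ d) (hQ : Q.Monic) (hdeg : Q.natDegree = d) (n : ℕ) :
    (G Q n).Monic ∧ (G Q n).natDegree = d ^ n := by
  induction n with
  | zero => exact ⟨monic_X, by simp [G]⟩
  | succ n ih =>
    have h0 : (G Q n).natDegree ≠ 0 := by rw [ih.2]; positivity
    have h1 : (Q.comp (G Q n)).Monic := hQ.comp ih.1 h0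
    have h2 : (Q.comp (G Q n)).natDegree = d ^ (n + 1) := by
      rw [natDegree_comp, hdeg, ih.2]; ring
    have h3 : 2 ≤ d ^ (n + 1) := by
      calc 2 ≤ d := hd
        _ = d ^ 1 := (pow_one d).symm
        _ ≤ d ^ (n + 1) := Nat.pow_le_pow_right (by omega) (by omega)
    have h4 : (X : ℂ[X]).natDegree < (Q.comp (G Q n)).natDegree := by
      rw [h2, natDegree_X]; omega
    have h5 : (X : ℂ[X]).degree < (Q.comp (G Q n)).degree := degree_lt_degree h4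
    refine ⟨h1.add_of_left h5, ?_⟩
    show (Q.comp (G Q n) + X).natDegree = d ^ (n + 1)
    rw [natDegree_add_eq_left_of_natDegree_lt h4, h2]

/-- a normalised polynomial whose critical points are at most `S` in modulus -/
structure Nrm (d : ℕ) (S : ℝ) (Q : ℂ[X]) : Prop where
  hd : 2 ≤ d
  hS : 0 ≤ S
  mon : Q.Monic
  deg : Q.natDegree = d
  z0 : Q.eval 0 = 0
  co : ∀ k, ‖Q.coeff k‖ ≤ S ^ (d - k) * d.choose k

lemma diff_le {d : ℕ} {S : ℝ} {Q : ℂ[X]} (h : Nrm d S Q) (z : ℂ) :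
    ‖Q.eval z - z ^ d‖ ≤ (‖z‖ + S) ^ d - ‖z‖ ^ d := by
  have hc : Q.coeff d = 1 := by
    have := h.mon.coeff_natDegree
    rwa [h.deg] at this
  rw [eval_eq_sum_range, h.deg, Finset.sum_range_succ, hc, one_mul, add_sub_cancel_right, add_pow,
    Finset.sum_range_succ]
  simp only [Nat.sub_self, pow_zero, mul_one, Nat.choose_self, Nat.cast_one, add_sub_cancel_right]
  refine (norm_sum_le _ _).trans (Finset.sum_le_sum fun k _ => ?_)
  rw [norm_mul, norm_pow]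
  calc ‖Q.coeff k‖ * ‖z‖ ^ k ≤ (S ^ (d - k) * d.choose k) * ‖z‖ ^ k := by
        gcongr
        exact h.co k
    _ = ‖z‖ ^ k * S ^ (d - k) * d.choose k := by ring

lemma half {d : ℕ} {S r : ℝ} (hd : 0 < d) (hS : 0 ≤ S) (hr : 0 < r) (h : 3 * d * S ≤ r) :
    (r + S) ^ d ≤ 3 / 2 * r ^ d := by
  have h1 : r + S = r * (1 + S / r) := by field_simp
  rw [h1, mul_pow, mul_comm (3 / 2 : ℝ)]
  apply mul_le_mul_of_nonneg_left _ (by positivity)
  have hd' : (0 : ℝ) < d := by exact_mod_cast hd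
  have h2 : (1 + S / r) ^ d ≤ Real.exp (1 / 3) := by
    calc (1 + S / r) ^ d ≤ (Real.exp (S / r)) ^ d := by
          apply pow_le_pow_left₀ (by positivity)
          linarith [Real.add_one_le_exp (S / r)]
      _ = Real.exp (d * (S / r)) := (Real.exp_nat_mul _ _).symm
      _ ≤ Real.exp (1 / 3) := by
          apply Real.exp_le_exp.2
          rw [← mul_div_assoc, div_le_div_iff₀ hr (by norm_num)]
          linarith
  refine h2.trans ?_
  by_contra hcon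
  push Not at hcon
  have h3 : (3 / 2 : ℝ) ^ 3 < Real.exp (1 / 3) ^ 3 := pow_lt_pow_left₀ hcon (by norm_num) (by norm_num)
  rw [← Real.exp_nat_mul] at h3
  have h4 := Real.exp_one_lt_d9
  norm_num at h3
  linarith

lemma eval_ge {d : ℕ} {S : ℝ} {Q : ℂ[X]} (h : Nrm d S Q) {z : ℂ} (hz : 0 < ‖z‖)
    (h1 : 3 * d * S ≤ ‖z‖) : ‖Q.eval z - z ^ d‖ ≤ 1 / 2 * ‖z‖ ^ d := by
  have h2 := diff_le h z
  have h3 := half (by have := h.hd; omega) h.hS hz h1
  linarith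

lemma esc_step {d : ℕ} {S : ℝ} {Q : ℂ[X]} (h : Nrm d S Q) {z v : ℂ}
    (h1 : 3 * d * S ≤ ‖z‖) (h2 : 6 ≤ ‖z‖) (h3 : ‖v‖ ≤ ‖z‖) : 2 * ‖z‖ ≤ ‖Q.eval z + v‖ := by
  have hz : 0 < ‖z‖ := by linarith
  have h4 := eval_ge h hz h1
  have h5 : ‖z ^ d‖ ≤ ‖Q.eval z + v‖ + ‖Q.eval z - z ^ d‖ + ‖v‖ := by
    have : z ^ d = (Q.eval z + v) - (Q.eval z - z ^ d) - v := by ring
    calc ‖z ^ d‖ = ‖(Q.eval z + v) - (Q.eval z - z ^ d) - v‖ := by rw [← this]
      _ ≤ ‖(Q.eval z + v) - (Q.eval z - z ^ d)‖ + ‖v‖ := norm_sub_le _ _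
      _ ≤ _ := by gcongr; exact norm_sub_le _ _
  rw [norm_pow] at h5
  have h6 : 6 * ‖z‖ ≤ ‖z‖ ^ d := by
    calc 6 * ‖z‖ ≤ ‖z‖ * ‖z‖ := by gcongr
      _ = ‖z‖ ^ 2 := by ring
      _ ≤ ‖z‖ ^ d := pow_le_pow_right₀ (by linarith) h.hd
  linarith

lemma esc_iter {d : ℕ} {S : ℝ} {Q : ℂ[X]} (h : Nrm d S Q) {z v : ℂ}
    (h1 : 3 * d * S ≤ ‖z‖) (h2 : 6 ≤ ‖z‖) (h3 : ‖v‖ ≤ ‖z‖) (n : ℕ) :
    2 ^ n * ‖z‖ ≤ ‖(fun w : ℂ => (Q + C v).eval w)^[n] z‖ := by
  induction n with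
  | zero => simp
  | succ n ih =>
    rw [Function.iterate_succ_apply']
    obtain ⟨w, hw⟩ : ∃ w, w = (fun w : ℂ => (Q + C v).eval w)^[n] z := ⟨_, rfl⟩
    rw [← hw] at ih ⊢
    have h4 : ‖z‖ ≤ ‖w‖ := by
      refine le_trans ?_ ih
      have : (1 : ℝ) ≤ 2 ^ n := one_le_pow₀ (by norm_num)
      nlinarith
    have h5 := esc_step h (h1.trans h4) (h2.trans h4) (h3.trans h4)
    have h6 : (Q + C v).eval w = Q.eval w + v := by simp
    show 2 ^ (n + 1) * ‖z‖ ≤ ‖(Q + C v).eval w‖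
    rw [h6]
    calc 2 ^ (n + 1) * ‖z‖ = 2 * (2 ^ n * ‖z‖) := by ring
      _ ≤ 2 * ‖w‖ := by gcongr
      _ ≤ _ := h5

/-- the radius of escape -/
noncomputable def Rad (d : ℕ) (S : ℝ) : ℝ := max (3 * d * S) 6

lemma rad_ge (d : ℕ) (S : ℝ) : 3 * d * S ≤ Rad d S ∧ 6 ≤ Rad d S :=
  ⟨le_max_left _ _, le_max_right _ _⟩

/-- the non-escaping critical values -/
def NE (Q : ℂ[X]) : Set ℂ :=
  {v : ℂ | ¬ Tendsto (fun k : ℕ => ‖(fun z : ℂ => (Q + C v).eval z)^[k] 0‖) atTop atTop}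

lemma ne_bound {d : ℕ} {S : ℝ} {Q : ℂ[X]} (h : Nrm d S Q) {v : ℂ} (hv : v ∈ NE Q) (n : ℕ) :
    ‖(G Q n).eval v‖ ≤ Rad d S := by
  by_contra hcon
  push Not at hcon
  apply hv
  have hR := rad_ge d S
  have key : ∀ m : ℕ, Rad d S ≤ ‖(G Q m).eval v‖ → ‖v‖ ≤ ‖(G Q m).eval v‖ →
      Tendsto (fun k : ℕ => ‖(fun z : ℂ => (Q + C v).eval z)^[k] 0‖) atTop atTop := by
    intro m h1 h2
    have h3 : ∀ k : ℕ, 2 ^ k * ‖(G Q m).eval v‖ ≤
        ‖(fun z : ℂ => (Q + C v).eval z)^[k + (m + 1)] 0‖ := by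
      intro k
      have h4 := esc_iter h (hR.1.trans h1) (hR.2.trans h1) h2 k
      have h5 : (fun z : ℂ => (Q + C v).eval z)^[k + (m + 1)] 0 =
          (fun z : ℂ => (Q + C v).eval z)^[k] ((G Q m).eval v) := by
        rw [Function.iterate_add_apply, Function.iterate_succ_apply, G_eval]
        congr 2
        simp [h.z0]
      rw [h5]
      exact h4
    rw [← tendsto_add_atTop_iff_nat (m + 1)]
    refine tendsto_atTop_mono h3 ?_
    apply Tendsto.atTop_mul_const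
    · have := hR.2
      linarith
    · exact tendsto_pow_atTop_atTop_of_one_lt (by norm_num)
  rcases le_total (Rad d S) ‖v‖ with h6 | h6
  · exact key 0 (by simpa [G] using h6) (by simp [G])
  · exact key n hcon.le (h6.trans hcon.le)

end Pool.Agent.K4H46.TF
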