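import Pool.Agent.K4H46.TF.Area
import Pool.Agent.K4H46.TF.Orb

set_option autoImplicit false

open Filter Topology Polynomial MeasureTheory Metric
open scoped ENNReal

namespace Pool.Agent.K4H46.TF

lemma norm_eval_eq {P : ℂ[X]} (hP : P.Monic) (z : ℂ) :
    ‖P.eval z‖ = (P.roots.map fun a => ‖z - a‖).prod := by
  have h1 : P.eval z = (P.roots.map (fun a => z - a)).prod :=
    (IsAlgClosed.splits P).eval_eq_prod_roots_of_monic hP z
  rw [h1]
  have h2 : ‖(P.roots.map (fun a => z - a)).prod‖ = ((P.roots.map (fun a => z - a)).map (‖·‖)).prod :=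
    map_multiset_prod (normHom : ℂ →*₀ ℝ) _
  rw [h2, Multiset.map_map]
  rfl

lemma card_roots_eq {P : ℂ[X]} : P.roots.card = P.natDegree :=
  ((IsAlgClosed.splits P).natDegree_eq_card_roots).symm

/-- the set of critical values with bounded orbit -/
def Es (Q : ℂ[X]) (R : ℝ) : Set ℂ := {v : ℂ | ∀ n, ‖(G Q n).eval v‖ ≤ R}

lemma es_closed (Q : ℂ[X]) (R : ℝ) : IsClosed (Es Q R) := by
  have : Es Q R = ⋂ n, {v : ℂ | ‖(G Q n).eval v‖ ≤ R} := by
    ext v; simp [Es]
  rw [this]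
  exact isClosed_iInter fun n => isClosed_le (by fun_prop) continuous_const

lemma es_sub (Q : ℂ[X]) (R : ℝ) : Es Q R ⊆ closedBall 0 R := by
  intro v hv
  have := hv 0
  simpa [G] using this

lemma es_fin (Q : ℂ[X]) (R : ℝ) {F : Set ℂ} (hF : F ⊆ Es Q R) : volume F ≠ ⊤ :=
  ((measure_mono (hF.trans (es_sub Q R))).trans_lt measure_closedBall_lt_top).ne

lemma rpow_lim {R : ℝ} (hR : 0 < R) {u : ℕ → ℕ} (hu : Tendsto u atTop atTop) :
    Tendsto (fun n => R ^ ((u n : ℝ)⁻¹)) atTop (𝓝 1) := by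
  have h1 : Tendsto (fun n => ((u n : ℝ))⁻¹) atTop (𝓝 0) :=
    tendsto_inv_atTop_zero.comp (tendsto_natCast_atTop_atTop.comp hu)
  have h2 : ContinuousAt (fun x : ℝ => R ^ x) 0 := Real.continuousAt_const_rpow hR.ne'
  have h3 := h2.tendsto.comp h1
  rw [Real.rpow_zero] at h3
  exact h3

lemma area_lim {E : Set ℂ} {R τ : ℝ} (hR : 0 < R) {u : ℕ → ℕ} (hu : Tendsto u atTop atTop)
    (h : ∀ᶠ n in atTop, volume E ≤ ENNReal.ofReal (4 * Real.pi * (R ^ ((u n : ℝ)⁻¹) * τ) ^ 2)) :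
    volume E ≤ ENNReal.ofReal (4 * Real.pi * τ ^ 2) := by
  have h1 : Tendsto (fun n => ENNReal.ofReal (4 * Real.pi * (R ^ ((u n : ℝ)⁻¹) * τ) ^ 2)) atTop
      (𝓝 (ENNReal.ofReal (4 * Real.pi * (1 * τ) ^ 2))) :=
    ENNReal.tendsto_ofReal ((((rpow_lim hR hu).mul_const τ).pow 2).const_mul _)
  rw [one_mul] at h1
  exact ge_of_tendsto h1 h

/-- The area of the critical values with bounded orbit is at most `4 π`. -/
theorem area_one {d : ℕ} {Q : ℂ[X]} (hd : 2 ≤ d) (hQ : Q.Monic) (hdeg : Q.natDegree = d)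
    {R : ℝ} (hR : 0 < R) : volume (Es Q R) ≤ ENNReal.ofReal (4 * Real.pi) := by
  have h0 : Tendsto (fun n : ℕ => d ^ n) atTop atTop := tendsto_pow_atTop_atTop_of_one_lt (by omega)
  have h1 := area_lim (E := Es Q R) (τ := 1) hR h0 ?_
  · simpa using h1
  refine Eventually.of_forall fun n => ?_
  obtain ⟨hm, hn⟩ := G_monic hd hQ hdeg n
  have hd0 : 0 < d ^ n := by positivity
  apply area_prod_le (G Q n).roots (by rw [card_roots_eq, hn]; exact hd0) (by positivity)
    (es_closed Q R).measurableSet (es_fin Q R subset_rfl)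
  intro z hz
  rw [← norm_eval_eq hm, card_roots_eq, hn, mul_one, ← Real.rpow_natCast, ← Real.rpow_mul hR.le,
    inv_mul_cancel₀ (by exact_mod_cast hd0.ne'), Real.rpow_one]
  exact hz n

/-- Sub-multisets of given size. -/
lemma exists_sub {α : Type*} (s : Multiset α) (n : ℕ) (h : n ≤ s.card) : ∃ t ≤ s, t.card = n := by
  have h1 : 0 < (Multiset.powersetCard n s).card := by
    rw [Multiset.card_powersetCard]; exact Nat.choose_pos h
  obtain ⟨t, ht⟩ := Multiset.card_pos_iff_exists_mem.1 h1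
  exact ⟨t, Multiset.mem_powersetCard.1 ht⟩

lemma prod_ge_pow {s : Multiset ℂ} {z : ℂ} {σ : ℝ} (hσ : 0 < σ) (h : ∀ a ∈ s, σ ≤ ‖z - a‖) :
    σ ^ s.card ≤ (s.map fun a => ‖z - a‖).prod := by
  induction s using Multiset.induction with
  | empty => simp
  | cons a s ih =>
    rw [Multiset.card_cons, Multiset.map_cons, Multiset.prod_cons, pow_succ, mul_comm]
    apply mul_le_mul (h a (Multiset.mem_cons_self a s))
      (ih fun b hb => h b (Multiset.mem_cons_of_mem hb)) (by positivity) (norm_nonneg _)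

/-- The area of a set of bounded critical orbits which is at distance at least `σ` from many zeros
of `G Q n`. -/
theorem area_two {d : ℕ} {Q : ℂ[X]} (hd : 2 ≤ d) (hQ : Q.Monic) (hdeg : Q.natDegree = d)
    {R σ : ℝ} (hR : 0 < R) (hσ : 0 < σ) {F : Set ℂ} (hF : F ⊆ Es Q R) (hFm : MeasurableSet F)
    (h : ∀ n : ℕ, 1 ≤ n → ∃ s ≤ (G Q n).roots, d ^ (n - 1) ≤ s.card ∧ ∀ z ∈ F, ∀ a ∈ s,
      σ ≤ ‖z - a‖) :
    volume F ≤ ENNReal.ofReal (4 * Real.pi * (σ ^ (-(1 / ((d : ℝ) - 1)))) ^ 2) := by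
  have h0 : Tendsto (fun n : ℕ => d ^ (n - 1) * (d - 1)) atTop atTop := by
    have h1 : Tendsto (fun n : ℕ => d ^ (n - 1)) atTop atTop :=
      (tendsto_pow_atTop_atTop_of_one_lt (by omega)).comp (tendsto_sub_atTop_nat 1)
    exact Tendsto.atTop_mul_const' (by omega) h1
  have hd1 : (0 : ℝ) < (d : ℝ) - 1 := by
    have : (2 : ℝ) ≤ d := by exact_mod_cast hd
    linarith
  refine area_lim hR h0 ?_
  filter_upwards [eventually_ge_atTop 1] with n hn
  obtain ⟨hm, hdn⟩ := G_monic hd hQ hdeg n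
  obtain ⟨s, hs1, hs2, hs3⟩ := h n hn
  obtain ⟨t, ht1, ht2⟩ := exists_sub s _ hs2
  obtain ⟨u, hu⟩ := Multiset.le_iff_exists_add.1 (ht1.trans hs1)
  have hu2 : u.card = d ^ (n - 1) * (d - 1) := by
    have h1 : (G Q n).roots.card = t.card + u.card := by rw [hu, Multiset.card_add]
    rw [card_roots_eq, hdn, ht2] at h1
    have h2 : d ^ n = d ^ (n - 1) * d := by rw [← pow_succ]; congr 1; omega
    have h3 : d ^ (n - 1) * d = d ^ (n - 1) * (d - 1) + d ^ (n - 1) := by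
      rw [← Nat.mul_succ]
      congr 1
      omega
    omega
  have hu0 : 0 < u.card := by
    rw [hu2]
    exact Nat.mul_pos (by positivity) (by omega)
  rw [← hu2]
  have hu0' : (u.card : ℝ) ≠ 0 := by exact_mod_cast hu0.ne'
  apply area_prod_le u hu0 (by positivity) hFm (es_fin Q R hF)
  intro z hz
  have e1 : (R ^ ((u.card : ℝ)⁻¹) * σ ^ (-(1 / ((d : ℝ) - 1)))) ^ u.card =
      R * (σ ^ (d ^ (n - 1)))⁻¹ := by
    rw [mul_pow, ← Real.rpow_natCast, ← Real.rpow_mul hR.le, inv_mul_cancel₀ hu0', Real.rpow_one,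
      ← Real.rpow_natCast (σ ^ (-(1 / ((d : ℝ) - 1)))), ← Real.rpow_mul hσ.le, ← Real.rpow_natCast σ,
      ← Real.rpow_neg hσ.le]
    congr 2
    rw [hu2]
    push_cast [Nat.cast_sub (show 1 ≤ d by omega)]
    field_simp
  rw [e1, ← div_eq_mul_inv, le_div_iff₀ (by positivity)]
  have e2 : (u.map fun a => ‖z - a‖).prod * (t.map fun a => ‖z - a‖).prod = ‖(G Q n).eval z‖ := by
    rw [norm_eval_eq hm, hu, Multiset.map_add, Multiset.prod_add, mul_comm]
  have e3 : σ ^ (d ^ (n - 1)) ≤ (t.map fun a => ‖z - a‖).prod := by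
    rw [← ht2]
    exact prod_ge_pow hσ fun a ha => hs3 z hz a (Multiset.mem_of_le ht1 ha)
  calc (u.map fun a => ‖z - a‖).prod * σ ^ (d ^ (n - 1)) ≤
        (u.map fun a => ‖z - a‖).prod * (t.map fun a => ‖z - a‖).prod := by
        apply mul_le_mul_of_nonneg_left e3
        apply Multiset.prod_nonneg
        intro x hx
        obtain ⟨a, _, rfl⟩ := Multiset.mem_map.1 hx
        positivity
    _ = ‖(G Q n).eval z‖ := e2
    _ ≤ R := hF hz n

end Pool.Agent.K4H46.TF
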