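import Pool.Agent.K4H46.TF.Inf

set_option autoImplicit false

open Filter Topology Polynomial MeasureTheory Metric
open scoped ENNReal

namespace Pool.Agent.K4H46.TF

theorem one {T : ℂ[X]} {d : ℕ} (hd : 2 ≤ d) (hT : T.natDegree = d) (t₀ : ℂ) {r : ℝ}
    (hr : 2 * √((d : ℝ) - 1) * ‖T.leadingCoeff‖ ^ (-(1 / ((d : ℝ) - 1))) < r) :
    ∃ t : ℂ, ‖t - t₀‖ < r ∧ Shift (T + C t) := by
  have hd1 : (1 : ℝ) ≤ (d : ℝ) - 1 := by
    have : (2 : ℝ) ≤ d := by exact_mod_cast hd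
    linarith
  obtain ⟨x, hx⟩ : ∃ x, x = 2 * √((d : ℝ) - 1) * ‖T.leadingCoeff‖ ^ (-(1 / ((d : ℝ) - 1))) :=
    ⟨_, rfl⟩
  have hx0 : 0 ≤ x := by rw [hx]; positivity
  rw [← hx] at hr
  have h1 := area1 hd hT
  have h2 : 4 * Real.pi * ((d : ℝ) - 1) * ‖T.leadingCoeff‖ ^ (-(2 / ((d : ℝ) - 1))) =
      x ^ 2 * Real.pi := by
    rw [hx, mul_pow, mul_pow, Real.sq_sqrt (by linarith),
      ← Real.rpow_natCast (‖T.leadingCoeff‖ ^ (-(1 / ((d : ℝ) - 1)))),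
      ← Real.rpow_mul (norm_nonneg _)]
    have e : -(1 / ((d : ℝ) - 1)) * ((2 : ℕ) : ℝ) = -(2 / ((d : ℝ) - 1)) := by push_cast; ring
    rw [e]; ring
  rw [h2] at h1
  obtain ⟨t, ht1, ht2⟩ := dist_of_area (lt_of_le_of_lt hx0 hr)
    (show x ^ 2 * Real.pi < r ^ 2 * Real.pi by
      have := Real.pi_pos
      gcongr) h1 t₀
  refine ⟨t, ht1, ?_⟩
  by_contra hcon
  exact ht2 hcon

/-- The constant for the second part. -/
noncomputable def K2 (d : ℕ) : ℝ := 4 * ((d : ℝ) - 1) * Cd d + 1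

theorem two {T : ℂ[X]} {d : ℕ} (hd : 2 ≤ d) (hT : T.natDegree = d) {c c' : ℂ}
    (hc : (derivative T).eval c = 0) (hc' : (derivative T).eval c' = 0) :
    volume {t : ℂ | ¬ Shift (T + C t)} ≤
      ENNReal.ofReal (K2 d * ‖T.leadingCoeff‖ ^ (-(2 / ((d : ℝ) - 1))) *
        (1 + ‖T.leadingCoeff‖ ^ (1 / ((d : ℝ) - 1)) * ‖c - c'‖) ^ (-(2 / ((d : ℝ) - 1)))) ∧
    ∀ t₀ : ℂ, ∃ t : ℂ, ‖t - t₀‖ < K2 d * ‖T.leadingCoeff‖ ^ (-(1 / ((d : ℝ) - 1))) *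
        (1 + ‖T.leadingCoeff‖ ^ (1 / ((d : ℝ) - 1)) * ‖c - c'‖) ^ (-(1 / ((d : ℝ) - 1))) ∧
        Shift (T + C t) := by
  have hd1 : (1 : ℝ) ≤ (d : ℝ) - 1 := by
    have : (2 : ℝ) ≤ d := by exact_mod_cast hd
    linarith
  have hC := Cd_pos (d := d)
  have hpi := Real.pi_pos
  have hT0 : T ≠ 0 := by
    rintro rfl
    rw [natDegree_zero] at hT; omega
  have ha : 0 < ‖T.leadingCoeff‖ := norm_pos_iff.2 (leadingCoeff_ne_zero.2 hT0)
  obtain ⟨u, hu⟩ : ∃ u, u = 1 + ‖T.leadingCoeff‖ ^ (1 / ((d : ℝ) - 1)) * ‖c - c'‖ := ⟨_, rfl⟩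
  have hu0 : 0 < u := by rw [hu]; positivity
  have hK1 : 0 < 4 * ((d : ℝ) - 1) * Cd d := by positivity
  have hK : 4 * ((d : ℝ) - 1) * Cd d < K2 d := by unfold K2; linarith
  have h0 := area2 hd hT hc hc'
  rw [← hu] at h0 ⊢
  refine ⟨h0.trans (ENNReal.ofReal_le_ofReal (by gcongr)), fun t₀ => ?_⟩
  have e1 : ‖T.leadingCoeff‖ ^ (-(2 / ((d : ℝ) - 1))) =
      (‖T.leadingCoeff‖ ^ (-(1 / ((d : ℝ) - 1)))) ^ 2 := by
    rw [← Real.rpow_natCast, ← Real.rpow_mul ha.le]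
    congr 1
    push_cast; ring
  have e2 : u ^ (-(2 / ((d : ℝ) - 1))) = (u ^ (-(1 / ((d : ℝ) - 1)))) ^ 2 := by
    rw [← Real.rpow_natCast, ← Real.rpow_mul hu0.le]
    congr 1
    push_cast; ring
  rw [e1, e2] at h0
  obtain ⟨x, hx⟩ : ∃ x, x = ‖T.leadingCoeff‖ ^ (-(1 / ((d : ℝ) - 1))) * u ^ (-(1 / ((d : ℝ) - 1))) :=
    ⟨_, rfl⟩
  have hx0 : 0 < x := by rw [hx]; positivity
  have h1 : volume {t : ℂ | ¬ Shift (T + C t)} ≤
      ENNReal.ofReal (4 * ((d : ℝ) - 1) * Cd d * x ^ 2) := by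
    refine h0.trans (le_of_eq ?_)
    congr 1
    rw [hx]; ring
  have hK2 : 1 ≤ K2 d := by unfold K2; linarith
  obtain ⟨t, ht1, ht2⟩ := dist_of_area (r := K2 d * x) (by positivity)
    (show 4 * ((d : ℝ) - 1) * Cd d * x ^ 2 < (K2 d * x) ^ 2 * Real.pi by
      have h2 : (K2 d * x) ^ 2 * Real.pi = K2 d * (K2 d * Real.pi) * x ^ 2 := by ring
      rw [h2]
      apply mul_lt_mul_of_pos_right _ (by positivity)
      have h3 : 1 ≤ K2 d * Real.pi := by nlinarith [Real.pi_gt_three]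
      nlinarith) h1 t₀
  refine ⟨t, ?_, ?_⟩
  · calc ‖t - t₀‖ < K2 d * x := ht1
      _ = _ := by rw [hx]; ring
  · by_contra hcon
    exact ht2 hcon

theorem three {d : ℕ} (hd : 2 ≤ d) {ε : ℝ} (hε : 0 < ε) : ∃ A : ℝ, ∀ T : ℂ[X], T.Monic →
    T.natDegree = d → T.coeff (d - 1) = 0 → (∃ k, A ≤ ‖T.coeff k‖) →
    volume {t : ℂ | ‖t‖ ≤ 1 ∧ ¬ Shift (T + C t)} ≤ ENNReal.ofReal ε ∧
    ∃ t : ℂ, ‖t‖ < ε ∧ Shift (T + C t) := by
  obtain ⟨δ, hδ⟩ : ∃ δ, δ = min ε 1 := ⟨_, rfl⟩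
  have hδ0 : 0 < δ := by rw [hδ]; exact lt_min hε one_pos
  have hδ1 : δ ≤ 1 := by rw [hδ]; exact min_le_right _ _
  have hδε : δ ≤ ε := by rw [hδ]; exact min_le_left _ _
  obtain ⟨A, hA⟩ := infinity hd (pow_pos hδ0 2)
  refine ⟨A, fun T h1 h2 h3 h4 => ?_⟩
  have h5 := hA T h1 h2 h3 h4
  refine ⟨h5.trans (ENNReal.ofReal_le_ofReal (by nlinarith)), ?_⟩
  obtain ⟨t, ht1, ht2⟩ := dist_of_area hδ0 (show δ ^ 2 < δ ^ 2 * Real.pi by
    have := Real.pi_gt_three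
    have h6 : 0 < δ ^ 2 := by positivity
    nlinarith) h5 0
  rw [sub_zero] at ht1
  refine ⟨t, ht1.trans_le hδε, ?_⟩
  by_contra hcon
  exact ht2 ⟨by linarith, hcon⟩

lemma stay {T : ℂ[X]} {s : ℝ} (hs : 0 ≤ s) (h : ∀ z : ℂ, ‖z‖ ≤ s → ‖T.eval z‖ ≤ s) : ¬ Esc T 0 := by
  intro hcon
  have h1 : ∀ n : ℕ, ‖(fun w : ℂ => T.eval w)^[n] 0‖ ≤ s := by
    intro n
    induction n with
    | zero => simpa using hs
    | succ n ih =>
      rw [Function.iterate_succ_apply']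
      exact h _ ih
  obtain ⟨n, hn⟩ := (hcon.eventually (eventually_gt_atTop s)).exists
  exact absurd (h1 n) (not_le.2 hn)

lemma not_shift_of {T : ℂ[X]} {s : ℝ} (hs : 0 ≤ s) (h0 : (derivative T).eval 0 = 0)
    (h : ∀ z : ℂ, ‖z‖ ≤ s → ‖T.eval z‖ ≤ s) : ¬ Shift T := fun hT => stay hs h (hT 0 h0)

lemma dpow0 {k : ℕ} (hk : 2 ≤ k) : (derivative (X ^ k : ℂ[X])).eval 0 = 0 := by
  rw [derivative_X_pow]
  simp only [eval_mul, eval_C, eval_pow, eval_X]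
  rw [zero_pow (by omega), mul_zero]

theorem four {d : ℕ} (hd : 2 ≤ d) {a t : ℂ} (ha : a ≠ 0)
    (ht : 4 * ‖t‖ ≤ ‖a‖ ^ (-(1 / ((d : ℝ) - 1)))) : ¬ Shift (C a * X ^ d + C t) := by
  have hd1 : (1 : ℝ) ≤ (d : ℝ) - 1 := by
    have : (2 : ℝ) ≤ d := by exact_mod_cast hd
    linarith
  have ha' : 0 < ‖a‖ := norm_pos_iff.2 ha
  obtain ⟨u, hu⟩ : ∃ u, u = ‖a‖ ^ (-(1 / ((d : ℝ) - 1))) := ⟨_, rfl⟩
  have hu0 : 0 < u := by rw [hu]; positivity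
  rw [← hu] at ht
  have h1 : ‖a‖ * u ^ (d - 1) = 1 := by
    rw [hu, ← Real.rpow_natCast, ← Real.rpow_mul ha'.le]
    have e : -(1 / ((d : ℝ) - 1)) * ((d - 1 : ℕ) : ℝ) = -1 := by
      push_cast [Nat.cast_sub (show 1 ≤ d by omega)]
      field_simp
    rw [e, Real.rpow_neg_one, mul_inv_cancel₀ ha'.ne']
  apply not_shift_of (s := u / 2) (by positivity)
  · rw [derivative_add, derivative_C, add_zero, derivative_C_mul, eval_mul, dpow0 hd, mul_zero]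
  intro z hz
  simp only [eval_add, eval_mul, eval_C, eval_pow, eval_X]
  have h2 : ‖a * z ^ d‖ ≤ u / 4 := by
    rw [norm_mul, norm_pow]
    calc ‖a‖ * ‖z‖ ^ d ≤ ‖a‖ * (u / 2) ^ d := by gcongr
      _ = (‖a‖ * u ^ (d - 1)) * u * (1 / 2) ^ d := by
          have : u ^ d = u ^ (d - 1) * u := by rw [← pow_succ]; congr 1; omega
          rw [show u / 2 = u * (1 / 2) by ring, mul_pow, this]; ring
      _ = u * (1 / 2) ^ d := by rw [h1, one_mul]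
      _ ≤ u * (1 / 2) ^ 2 := by
          gcongr ?_ * ?_
          exact pow_le_pow_of_le_one (by norm_num) (by norm_num) hd
      _ = u / 4 := by ring
  calc ‖a * z ^ d + t‖ ≤ ‖a * z ^ d‖ + ‖t‖ := norm_add_le _ _
    _ ≤ u / 4 + u / 4 := by linarith
    _ = u / 2 := by ring

theorem five {d : ℕ} (hd : 3 ≤ d) {b t : ℂ} (hb : 1 ≤ ‖b‖)
    (ht : 8 * ‖t‖ ≤ ‖b‖ ^ (-(1 / ((d : ℝ) - 2)))) :
    ¬ Shift (X ^ d + C b * X ^ (d - 1) + C t) := by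
  have hd1 : (1 : ℝ) ≤ (d : ℝ) - 2 := by
    have : (3 : ℝ) ≤ d := by exact_mod_cast hd
    linarith
  have hb' : 0 < ‖b‖ := by linarith
  obtain ⟨u, hu⟩ : ∃ u, u = ‖b‖ ^ (-(1 / ((d : ℝ) - 2))) := ⟨_, rfl⟩
  have hu0 : 0 < u := by rw [hu]; positivity
  have hu1 : u ≤ 1 := by
    rw [hu]
    apply Real.rpow_le_one_of_one_le_of_nonpos hb
    rw [neg_nonpos]; positivity
  rw [← hu] at ht
  have h1 : ‖b‖ * u ^ (d - 2) = 1 := by
    rw [hu, ← Real.rpow_natCast, ← Real.rpow_mul hb'.le]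
    have e : -(1 / ((d : ℝ) - 2)) * ((d - 2 : ℕ) : ℝ) = -1 := by
      push_cast [Nat.cast_sub (show 2 ≤ d by omega)]
      field_simp
    rw [e, Real.rpow_neg_one, mul_inv_cancel₀ hb'.ne']
  apply not_shift_of (s := u / 4) (by positivity)
  · rw [derivative_add, derivative_C, add_zero, derivative_add, derivative_C_mul, eval_add,
      eval_mul, dpow0 (show 2 ≤ d by omega), dpow0 (show 2 ≤ d - 1 by omega), mul_zero, add_zero]
  intro z hz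
  simp only [eval_add, eval_mul, eval_C, eval_pow, eval_X]
  have h2 : ‖b * z ^ (d - 1)‖ ≤ u / 16 := by
    rw [norm_mul, norm_pow]
    calc ‖b‖ * ‖z‖ ^ (d - 1) ≤ ‖b‖ * (u / 4) ^ (d - 1) := by gcongr
      _ = (‖b‖ * u ^ (d - 2)) * u * (1 / 4) ^ (d - 1) := by
          have : u ^ (d - 1) = u ^ (d - 2) * u := by rw [← pow_succ]; congr 1; omega
          rw [show u / 4 = u * (1 / 4) by ring, mul_pow, this]; ring
      _ = u * (1 / 4) ^ (d - 1) := by rw [h1, one_mul]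
      _ ≤ u * (1 / 4) ^ 2 := by
          gcongr ?_ * ?_
          exact pow_le_pow_of_le_one (by norm_num) (by norm_num) (by omega)
      _ = u / 16 := by ring
  have h3 : ‖z ^ d‖ ≤ u / 16 := by
    rw [norm_pow]
    calc ‖z‖ ^ d ≤ (u / 4) ^ d := by gcongr
      _ ≤ (u / 4) ^ 2 := pow_le_pow_of_le_one (by positivity) (by linarith) (by omega)
      _ = u * u / 16 := by ring
      _ ≤ u * 1 / 16 := by gcongr
      _ = u / 16 := by ring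
  calc ‖z ^ d + b * z ^ (d - 1) + t‖ ≤ ‖z ^ d + b * z ^ (d - 1)‖ + ‖t‖ := norm_add_le _ _
    _ ≤ ‖z ^ d‖ + ‖b * z ^ (d - 1)‖ + ‖t‖ := by gcongr; exact norm_add_le _ _
    _ ≤ u / 16 + u / 16 + u / 8 := by linarith
    _ = u / 4 := by ring

lemma five_crit {d : ℕ} (hd : 3 ≤ d) (b : ℂ) :
    (derivative (X ^ d + C b * X ^ (d - 1) : ℂ[X])).eval 0 = 0 ∧
    (derivative (X ^ d + C b * X ^ (d - 1) : ℂ[X])).eval (-(((d : ℂ) - 1) / d * b)) = 0 := by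
  have hdC : (d : ℂ) ≠ 0 := by exact_mod_cast (show d ≠ 0 by omega)
  constructor
  · rw [derivative_add, derivative_C_mul, eval_add,
      eval_mul, dpow0 (show 2 ≤ d by omega), dpow0 (show 2 ≤ d - 1 by omega), mul_zero, add_zero]
  · obtain ⟨e, rfl⟩ : ∃ e, d = e + 2 := ⟨d - 2, by omega⟩
    simp only [show e + 2 - 1 = e + 1 by omega, derivative_add, derivative_X_pow,
      derivative_C_mul, eval_add, eval_mul, eval_C, eval_pow, eval_X, Nat.add_sub_cancel]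
    push_cast
    push_cast at hdC
    rw [pow_succ]
    have h : ((e : ℂ) + 2) * (-(((e : ℂ) + 2 - 1) / (e + 2) * b)) = -(((e : ℂ) + 1) * b) := by
      field_simp
      ring
    calc _ = (-(((e : ℂ) + 2 - 1) / (e + 2) * b)) ^ e *
          (((e : ℂ) + 2) * (-(((e : ℂ) + 2 - 1) / (e + 2) * b)) + ((e : ℂ) + 1) * b) := by ring
      _ = 0 := by rw [h]; ring

end Pool.Agent.K4H46.TF
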