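import Pool.Agent.K4H46.TF.Main

set_option autoImplicit false

open Filter Topology Polynomial MeasureTheory Metric
open scoped ENNReal

namespace Pool.Agent.K4H46.TF

lemma deriv_ne {T : ℂ[X]} {d : ℕ} (hd : 2 ≤ d) (hT : T.natDegree = d) : derivative T ≠ 0 := by
  intro h0
  have := natDegree_derivative T
  rw [h0, natDegree_zero, hT] at this; omega

lemma mem_crit {T : ℂ[X]} {d : ℕ} (hd : 2 ≤ d) (hT : T.natDegree = d) {w : ℂ} :
    w ∈ (derivative T).roots ↔ (derivative T).eval w = 0 := by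
  rw [mem_roots (deriv_ne hd hT), IsRoot.def]

lemma crit_exists {T : ℂ[X]} {d : ℕ} (hd : 2 ≤ d) (hT : T.natDegree = d) :
    ∃ w, (derivative T).eval w = 0 := by
  have h1 : 0 < (derivative T).roots.card := by
    rw [card_roots_eq, natDegree_derivative, hT]; omega
  obtain ⟨w, hw⟩ := Multiset.card_pos_iff_exists_mem.1 h1
  exact ⟨w, (mem_crit hd hT).1 hw⟩

/-- The critical points of a centred polynomial have sum zero. -/
lemma crit_sum {T : ℂ[X]} {d : ℕ} (hd : 2 ≤ d) (hT : T.natDegree = d)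
    (hcen : T.coeff (d - 1) = 0) (hd3 : 3 ≤ d) : (derivative T).roots.sum = 0 := by
  have h1 := (IsAlgClosed.splits (derivative T)).nextCoeff_eq_neg_sum_roots_mul_leadingCoeff
  have h2 : (derivative T).nextCoeff = 0 := by
    rw [nextCoeff_of_natDegree_pos (by rw [natDegree_derivative, hT]; omega), coeff_derivative,
      natDegree_derivative, hT, show d - 1 - 1 + 1 = d - 1 by omega, hcen, zero_mul]
  rw [h2] at h1
  have h3 : (derivative T).leadingCoeff ≠ 0 := leadingCoeff_ne_zero.2 (deriv_ne hd hT)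
  rcases mul_eq_zero.1 h1.symm with h4 | h4
  · exact absurd (neg_eq_zero.1 h4) h3
  · exact h4

lemma sum_norm_lt {s : Multiset ℂ} {w : ℂ} {D : ℝ} (hs : 0 < s.card)
    (h : ∀ a ∈ s, ‖w - a‖ < D) : ‖(s.map fun a => w - a).sum‖ < s.card * D := by
  induction s using Multiset.induction with
  | empty => simp at hs
  | cons a s ih =>
    rw [Multiset.map_cons, Multiset.sum_cons, Multiset.card_cons]
    have h1 := h a (Multiset.mem_cons_self a s)
    rcases Nat.eq_zero_or_pos s.card with h0 | h0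
    · rw [Multiset.card_eq_zero] at h0
      subst h0
      simpa using h1
    · have h2 := ih h0 fun b hb => h b (Multiset.mem_cons_of_mem hb)
      push_cast
      calc ‖w - a + (s.map fun a => w - a).sum‖ ≤ ‖w - a‖ + ‖(s.map fun a => w - a).sum‖ :=
            norm_add_le _ _
        _ < D + s.card * D := by linarith
        _ = _ := by ring

/-- A centred polynomial with a large critical point has two distant critical points. -/
lemma far_crit {T : ℂ[X]} {d : ℕ} (hd : 2 ≤ d) (hT : T.natDegree = d)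
    (hcen : T.coeff (d - 1) = 0) {D : ℝ} (hD : 0 < D) {w : ℂ} (hw : (derivative T).eval w = 0)
    (hwD : D ≤ ‖w‖) : ∃ w', (derivative T).eval w' = 0 ∧ D ≤ ‖w - w'‖ := by
  rcases Nat.lt_or_ge d 3 with h3 | h3
  · exfalso
    have hd2 : d = 2 := by omega
    subst hd2
    have h1 : (derivative T).eval w = 2 * T.leadingCoeff * w := by
      have h2 : (derivative T).natDegree = 1 := by rw [natDegree_derivative, hT]
      rw [eval_eq_sum_range, h2, Finset.sum_range_succ, Finset.sum_range_one, coeff_derivative,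
        coeff_derivative]
      have h3 : T.coeff 1 = 0 := hcen
      have h4 : T.coeff 2 = T.leadingCoeff := by unfold leadingCoeff; rw [hT]
      simp only [zero_add, Nat.reduceAdd, h3, h4]
      push_cast
      ring
    rw [h1] at hw
    have hT0 : T ≠ 0 := by
      rintro rfl
      rw [natDegree_zero] at hT; omega
    have h5 : T.leadingCoeff ≠ 0 := leadingCoeff_ne_zero.2 hT0
    have h6 : w = 0 := by
      rcases mul_eq_zero.1 hw with h | h
      · exact absurd h (mul_ne_zero two_ne_zero h5)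
      · exact h
    rw [h6, norm_zero] at hwD
    linarith
  by_contra hcon
  push Not at hcon
  have hc : 0 < (derivative T).roots.card := by
    rw [card_roots_eq, natDegree_derivative, hT]; omega
  have h1 := sum_norm_lt (w := w) hc fun a ha => hcon a ((mem_crit hd hT).1 ha)
  have h2 : ((derivative T).roots.map fun a => w - a).sum = (derivative T).roots.card * w := by
    rw [Multiset.sum_map_sub, Multiset.map_const', Multiset.sum_replicate, nsmul_eq_mul,
      Multiset.map_id', crit_sum hd hT hcen h3, sub_zero]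
  rw [h2, norm_mul, Complex.norm_natCast] at h1
  have h4 : (0 : ℝ) < (derivative T).roots.card := by exact_mod_cast hc
  have h5 := (mul_lt_mul_iff_right₀ h4).1 h1
  linarith

/-- If the critical points are bounded and the constant coefficient is large then all critical
points escape. -/
lemma shift_of_large {T : ℂ[X]} {d : ℕ} (hd : 2 ≤ d) (hm : T.Monic) (hT : T.natDegree = d)
    {D : ℝ} (hD : 0 ≤ D) (hcr : ∀ w, (derivative T).eval w = 0 → ‖w‖ ≤ D)
    (hbig : Rad d (2 * D) + (2 * D) ^ d + D + 1 < ‖T.coeff 0‖) {t : ℂ} (ht : ‖t‖ ≤ 1) :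
    Shift (T + C t) := by
  intro c hc
  rw [derivative_add, derivative_C, add_zero] at hc
  by_contra hcon
  have hκ : (1 : ℂ) ^ (d - 1) = T.leadingCoeff := by rw [one_pow, hm]
  have hN : Nrm d (2 * D) (nq T c 1) := by
    apply nq_nrm hd hT hκ one_ne_zero (by positivity)
    intro w hw
    rw [norm_one, one_mul]
    refine (norm_sub_le _ _).trans ?_
    linarith [hcr w hw, hcr c hc]
  have h1 := ne_bound hN (mem_ne one_ne_zero hcon) 0
  have h2 : (G (nq T c 1) 0).eval (1 * t + 1 * (T.eval c - c)) = t + (T.eval c - c) := by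
    simp [G]
  rw [h2] at h1
  have h3 : ‖T.eval c - T.coeff 0‖ ≤ (2 * D) ^ d := by
    rw [eval_eq_sum_range, hT, Finset.sum_range_succ', pow_zero, mul_one, add_sub_cancel_right]
    have h4 : (2 * D) ^ d = (D + D) ^ d := by ring
    rw [h4, add_pow, Finset.sum_range_succ']
    have h5 : ‖∑ k ∈ Finset.range d, T.coeff (k + 1) * c ^ (k + 1)‖ ≤
        ∑ k ∈ Finset.range d, D ^ (k + 1) * D ^ (d - (k + 1)) * (d.choose (k + 1) : ℝ) := by
      refine (norm_sum_le _ _).trans (Finset.sum_le_sum fun k _ => ?_)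
      rw [norm_mul, norm_pow]
      have h6 := coeff_bound hd hm hT hcr (k + 1) (by omega)
      calc ‖T.coeff (k + 1)‖ * ‖c‖ ^ (k + 1) ≤
            (D ^ (d - (k + 1)) * d.choose (k + 1)) * D ^ (k + 1) := by
            gcongr
            exact hcr c hc
        _ = _ := by ring
    have h7 : 0 ≤ D ^ 0 * D ^ (d - 0) * (d.choose 0 : ℝ) := by positivity
    linarith
  have h4 : ‖T.coeff 0‖ ≤ ‖t + (T.eval c - c)‖ + ‖T.eval c - T.coeff 0‖ + ‖c‖ + ‖t‖ := by
    have e : T.coeff 0 = (t + (T.eval c - c)) - (T.eval c - T.coeff 0) + c - t := by ring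
    calc ‖T.coeff 0‖ = ‖(t + (T.eval c - c)) - (T.eval c - T.coeff 0) + c - t‖ := by rw [← e]
      _ ≤ ‖(t + (T.eval c - c)) - (T.eval c - T.coeff 0) + c‖ + ‖t‖ := norm_sub_le _ _
      _ ≤ ‖(t + (T.eval c - c)) - (T.eval c - T.coeff 0)‖ + ‖c‖ + ‖t‖ := by
          gcongr; exact norm_add_le _ _
      _ ≤ _ := by gcongr; exact norm_sub_le _ _
  have h5 := hcr c hc
  linarith

/-- Hyperbolic polynomials become dense at infinity of the moduli space. -/
theorem infinity {d : ℕ} (hd : 2 ≤ d) {ε : ℝ} (hε : 0 < ε) : ∃ A : ℝ, ∀ T : ℂ[X], T.Monic →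
    T.natDegree = d → T.coeff (d - 1) = 0 → (∃ k, A ≤ ‖T.coeff k‖) →
    volume {t : ℂ | ‖t‖ ≤ 1 ∧ ¬ Shift (T + C t)} ≤ ENNReal.ofReal ε := by
  have hd1 : (1 : ℝ) ≤ (d : ℝ) - 1 := by
    have : (2 : ℝ) ≤ d := by exact_mod_cast hd
    linarith
  obtain ⟨p, hp⟩ : ∃ p, p = 2 / ((d : ℝ) - 1) := ⟨_, rfl⟩
  have hp0 : 0 < p := by rw [hp]; positivity
  have hlim : Tendsto (fun x : ℝ => 4 * ((d : ℝ) - 1) * Cd d * (1 + x) ^ (-p)) atTop (𝓝 0) := by
    have h1 : Tendsto (fun x : ℝ => (1 + x) ^ (-p)) atTop (𝓝 0) :=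
      (tendsto_rpow_neg_atTop hp0).comp (tendsto_atTop_add_const_left _ 1 tendsto_id)
    simpa using h1.const_mul (4 * ((d : ℝ) - 1) * Cd d)
  obtain ⟨D, hD1, hD2⟩ := ((eventually_gt_atTop 0).and (hlim.eventually (gt_mem_nhds hε))).exists
  refine ⟨max ((1 + D) ^ d * 2 ^ d + 1) (Rad d (2 * D) + (2 * D) ^ d + D + 2), ?_⟩
  intro T hm hT hcen ⟨k, hk⟩
  by_cases hcr : ∀ w, (derivative T).eval w = 0 → ‖w‖ ≤ D
  · have hk0 : k = 0 := by
      by_contra hk0
      have h1 := coeff_bound hd hm hT hcr k (by omega)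
      have h2 : (d.choose k : ℝ) ≤ 2 ^ d := by exact_mod_cast Nat.choose_le_two_pow d k
      have h3 : D ^ (d - k) ≤ (1 + D) ^ d := by
        calc D ^ (d - k) ≤ (1 + D) ^ (d - k) := by gcongr; linarith
          _ ≤ (1 + D) ^ d := pow_le_pow_right₀ (by linarith) (by omega)
      have h4 : ‖T.coeff k‖ ≤ (1 + D) ^ d * 2 ^ d := h1.trans (by gcongr)
      have h5 := (le_max_left _ _).trans hk
      linarith
    rw [hk0] at hk
    have h5 := (le_max_right _ _).trans hk
    have h6 : {t : ℂ | ‖t‖ ≤ 1 ∧ ¬ Shift (T + C t)} = ∅ := by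
      rw [Set.eq_empty_iff_forall_notMem]
      rintro t ⟨ht1, ht2⟩
      exact ht2 (shift_of_large hd hm hT hD1.le hcr (by linarith) ht1)
    rw [h6, measure_empty]
    exact bot_le
  · push Not at hcr
    obtain ⟨w, hw, hwD⟩ := hcr
    obtain ⟨w', hw', hww⟩ := far_crit hd hT hcen hD1 hw hwD.le
    have h1 := area2 hd hT hw hw'
    rw [hm, norm_one, Real.one_rpow, Real.one_rpow, mul_one, one_mul, ← hp] at h1
    refine (measure_mono fun t ht => ht.2).trans (h1.trans ?_)
    apply ENNReal.ofReal_le_ofReal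
    refine le_trans ?_ hD2.le
    have hC := Cd_pos (d := d)
    apply mul_le_mul_of_nonneg_left _ (by positivity)
    apply Real.rpow_le_rpow_of_nonpos (by positivity) (by linarith) (by linarith)

end Pool.Agent.K4H46.TF
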