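import Pool.Agent.K4H46.TF.Nm

set_option autoImplicit false

open Filter Topology Polynomial MeasureTheory Metric
open scoped ENNReal

namespace Pool.Agent.K4H46.TF

lemma exists_kappa {a : ℂ} (ha : a ≠ 0) {d : ℕ} (hd : 2 ≤ d) :
    ∃ κ : ℂ, κ ^ (d - 1) = a ∧ κ ≠ 0 ∧ ‖κ‖ = ‖a‖ ^ (1 / ((d : ℝ) - 1)) ∧
      (‖κ‖ ^ 2)⁻¹ = ‖a‖ ^ (-(2 / ((d : ℝ) - 1))) := by
  obtain ⟨κ, hκ⟩ := IsAlgClosed.exists_pow_nat_eq a (show 0 < d - 1 by omega)
  have hd1 : (0 : ℝ) < (d : ℝ) - 1 := by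
    have : (2 : ℝ) ≤ d := by exact_mod_cast hd
    linarith
  have hκ0 : κ ≠ 0 := by
    rintro rfl
    rw [zero_pow (by omega)] at hκ
    exact ha hκ.symm
  have h1 : ‖κ‖ ^ ((d : ℝ) - 1) = ‖a‖ := by
    rw [← hκ, norm_pow, ← Real.rpow_natCast]
    congr 1
    push_cast [Nat.cast_sub (show 1 ≤ d by omega)]
    ring
  have h2 : ‖κ‖ = ‖a‖ ^ (1 / ((d : ℝ) - 1)) := by
    rw [← h1, ← Real.rpow_mul (norm_nonneg _), mul_one_div_cancel hd1.ne', Real.rpow_one]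
  refine ⟨κ, hκ, hκ0, h2, ?_⟩
  rw [h2, ← Real.rpow_natCast, ← Real.rpow_mul (norm_nonneg _), ← Real.rpow_neg (norm_nonneg _)]
  congr 1
  push_cast; ring

/-- The two area bounds for one critical point. -/
theorem crit_area {T : ℂ[X]} {d : ℕ} (hd : 2 ≤ d) (hT : T.natDegree = d) {c c' : ℂ}
    (hc : (derivative T).eval c = 0) (hc' : (derivative T).eval c' = 0) :
    volume {t : ℂ | ¬ Esc (T + C t) c} ≤
      ENNReal.ofReal (4 * Real.pi * ‖T.leadingCoeff‖ ^ (-(2 / ((d : ℝ) - 1)))) ∧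
    volume {t : ℂ | ¬ Esc (T + C t) c} ≤
      ENNReal.ofReal (Cd d * ‖T.leadingCoeff‖ ^ (-(2 / ((d : ℝ) - 1))) *
        (1 + ‖T.leadingCoeff‖ ^ (1 / ((d : ℝ) - 1)) * ‖c' - c‖) ^ (-(2 / ((d : ℝ) - 1)))) := by
  classical
  have hT0 : T ≠ 0 := by
    rintro rfl
    rw [natDegree_zero] at hT; omega
  have ha : T.leadingCoeff ≠ 0 := leadingCoeff_ne_zero.2 hT0
  obtain ⟨κ, hκ, hκ0, hκ1, hκ2⟩ := exists_kappa ha hd
  have hD0 : derivative T ≠ 0 := by
    intro h0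
    have := natDegree_derivative T
    rw [h0, natDegree_zero, hT] at this; omega
  have hmem : ∀ w, (derivative T).eval w = 0 ↔ w ∈ (derivative T).roots.toFinset := by
    intro w
    rw [Multiset.mem_toFinset, mem_roots hD0, IsRoot.def]
  obtain ⟨w0, hw0, hmax⟩ := Finset.exists_max_image (derivative T).roots.toFinset
    (fun w => ‖w - c‖) ⟨c, (hmem c).1 hc⟩
  obtain ⟨S, hS⟩ : ∃ S, S = ‖κ‖ * ‖w0 - c‖ := ⟨_, rfl⟩
  have hS0 : 0 ≤ S := by rw [hS]; positivity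
  have hN : Nrm d S (nq T c κ) := by
    apply nq_nrm hd hT hκ hκ0 hS0
    intro w hw
    rw [hS]
    gcongr
    exact hmax w ((hmem w).1 hw)
  have hsub : {t : ℂ | ¬ Esc (T + C t) c} ⊆
      (fun t => κ * t + κ * (T.eval c - c)) ⁻¹' (Es (nq T c κ) (Rad d S)) := by
    intro t ht n
    exact ne_bound hN (mem_ne hκ0 ht) n
  have hp2 : (0 : ℝ) ≤ ‖T.leadingCoeff‖ ^ (-(2 / ((d : ℝ) - 1))) := by positivity
  constructor
  · refine (measure_mono hsub).trans ?_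
    rw [area_affine hκ0, hκ2]
    refine (mul_le_mul_right (area_one hd hN.mon hN.deg (R := Rad d S)
      (by linarith [(rad_ge d S).2])) _).trans ?_
    rw [← ENNReal.ofReal_mul hp2]
    apply ENNReal.ofReal_le_ofReal
    exact le_of_eq (by ring)
  · refine (measure_mono hsub).trans ?_
    rw [area_affine hκ0, hκ2]
    have hγ : (derivative (nq T c κ)).eval (κ * (w0 - c)) = 0 := by
      rw [nq_deriv hκ0, inv_mul_cancel_left₀ hκ0, sub_add_cancel]
      exact (hmem w0).2 hw0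
    refine (mul_le_mul_right (area_all hN hγ (by rw [hS, norm_mul])) _).trans ?_
    rw [← ENNReal.ofReal_mul hp2]
    apply ENNReal.ofReal_le_ofReal
    have h1 : (1 + S) ^ (-(2 / ((d : ℝ) - 1))) ≤
        (1 + ‖T.leadingCoeff‖ ^ (1 / ((d : ℝ) - 1)) * ‖c' - c‖) ^ (-(2 / ((d : ℝ) - 1))) := by
      have hd1 : (0 : ℝ) < (d : ℝ) - 1 := by
        have : (2 : ℝ) ≤ d := by exact_mod_cast hd
        linarith
      apply Real.rpow_le_rpow_of_nonpos (by positivity)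
      · rw [← hκ1, hS]
        gcongr
        exact hmax c' ((hmem c').1 hc')
      · rw [neg_nonpos]; positivity
    have hC := Cd_pos (d := d)
    calc ‖T.leadingCoeff‖ ^ (-(2 / ((d : ℝ) - 1))) * (Cd d * (1 + S) ^ (-(2 / ((d : ℝ) - 1)))) ≤
          ‖T.leadingCoeff‖ ^ (-(2 / ((d : ℝ) - 1))) * (Cd d *
          (1 + ‖T.leadingCoeff‖ ^ (1 / ((d : ℝ) - 1)) * ‖c' - c‖) ^ (-(2 / ((d : ℝ) - 1)))) := by
          gcongr
      _ = _ := by ring

/-- All critical points escape. -/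
def Shift (T : ℂ[X]) : Prop := ∀ c : ℂ, (derivative T).eval c = 0 → Esc T c

lemma shift_add {T : ℂ[X]} {t : ℂ} :
    ¬ Shift (T + C t) ↔ ∃ c, (derivative T).eval c = 0 ∧ ¬ Esc (T + C t) c := by
  unfold Shift
  rw [derivative_add, derivative_C, add_zero]
  push Not
  rfl

lemma union_bound {T : ℂ[X]} {d : ℕ} (hd : 2 ≤ d) (hT : T.natDegree = d) {B : ℝ}
    (h : ∀ c, (derivative T).eval c = 0 → volume {t : ℂ | ¬ Esc (T + C t) c} ≤ ENNReal.ofReal B) :
    volume {t : ℂ | ¬ Shift (T + C t)} ≤ ENNReal.ofReal (((d : ℝ) - 1) * B) := by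
  classical
  have hD0 : derivative T ≠ 0 := by
    intro h0
    have := natDegree_derivative T
    rw [h0, natDegree_zero, hT] at this; omega
  have hmem : ∀ w, (derivative T).eval w = 0 ↔ w ∈ (derivative T).roots.toFinset := by
    intro w
    rw [Multiset.mem_toFinset, mem_roots hD0, IsRoot.def]
  have h1 : {t : ℂ | ¬ Shift (T + C t)} ⊆
      ⋃ c ∈ (derivative T).roots.toFinset, {t : ℂ | ¬ Esc (T + C t) c} := by
    intro t ht
    obtain ⟨c, hc, hc2⟩ := shift_add.1 ht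
    simp only [Set.mem_iUnion]
    exact ⟨c, (hmem c).1 hc, hc2⟩
  have hcard : (derivative T).roots.toFinset.card ≤ d - 1 := by
    refine (Multiset.toFinset_card_le _).trans ?_
    rw [card_roots_eq, natDegree_derivative, hT]
  calc volume {t : ℂ | ¬ Shift (T + C t)} ≤ _ := measure_mono h1
    _ ≤ ∑ c ∈ (derivative T).roots.toFinset, volume {t : ℂ | ¬ Esc (T + C t) c} :=
        measure_biUnion_finset_le _ _
    _ ≤ ∑ c ∈ (derivative T).roots.toFinset, ENNReal.ofReal B :=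
        Finset.sum_le_sum fun c hc => h c ((hmem c).2 hc)
    _ = ((derivative T).roots.toFinset.card : ℝ≥0∞) * ENNReal.ofReal B := by
        rw [Finset.sum_const, nsmul_eq_mul]
    _ ≤ ((d - 1 : ℕ) : ℝ≥0∞) * ENNReal.ofReal B := by gcongr
    _ = ENNReal.ofReal (((d : ℝ) - 1) * B) := by
        rw [ENNReal.ofReal_mul (by
          have : (2 : ℝ) ≤ d := by exact_mod_cast hd
          linarith)]
        congr 1
        rw [← ENNReal.ofReal_natCast]
        congr 1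
        push_cast [Nat.cast_sub (show 1 ≤ d by omega)]
        ring

theorem area1 {T : ℂ[X]} {d : ℕ} (hd : 2 ≤ d) (hT : T.natDegree = d) :
    volume {t : ℂ | ¬ Shift (T + C t)} ≤
      ENNReal.ofReal (4 * Real.pi * ((d : ℝ) - 1) *
        ‖T.leadingCoeff‖ ^ (-(2 / ((d : ℝ) - 1)))) := by
  refine (union_bound hd hT fun c hc => (crit_area hd hT hc hc).1).trans ?_
  apply ENNReal.ofReal_le_ofReal
  exact le_of_eq (by ring)

theorem area2 {T : ℂ[X]} {d : ℕ} (hd : 2 ≤ d) (hT : T.natDegree = d) {c c' : ℂ}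
    (hc : (derivative T).eval c = 0) (hc' : (derivative T).eval c' = 0) :
    volume {t : ℂ | ¬ Shift (T + C t)} ≤
      ENNReal.ofReal (4 * ((d : ℝ) - 1) * Cd d * ‖T.leadingCoeff‖ ^ (-(2 / ((d : ℝ) - 1))) *
        (1 + ‖T.leadingCoeff‖ ^ (1 / ((d : ℝ) - 1)) * ‖c - c'‖) ^ (-(2 / ((d : ℝ) - 1)))) := by
  have hd1 : (1 : ℝ) ≤ (d : ℝ) - 1 := by
    have : (2 : ℝ) ≤ d := by exact_mod_cast hd
    linarith
  obtain ⟨x, hx⟩ : ∃ x, x = ‖T.leadingCoeff‖ ^ (1 / ((d : ℝ) - 1)) := ⟨_, rfl⟩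
  have hx0 : 0 ≤ x := by rw [hx]; positivity
  obtain ⟨y, hy⟩ : ∃ y, y = ‖T.leadingCoeff‖ ^ (-(2 / ((d : ℝ) - 1))) := ⟨_, rfl⟩
  have hy0 : 0 ≤ y := by rw [hy]; positivity
  obtain ⟨p, hp⟩ : ∃ p, p = 2 / ((d : ℝ) - 1) := ⟨_, rfl⟩
  have hp0 : 0 ≤ p := by rw [hp]; positivity
  have hp2 : p ≤ 2 := by
    rw [hp, div_le_iff₀ (by linarith)]; linarith
  have hC := Cd_pos (d := d)
  have h1 : ∀ b, (derivative T).eval b = 0 → volume {t : ℂ | ¬ Esc (T + C t) b} ≤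
      ENNReal.ofReal (Cd d * y * (1 + x * (‖c - c'‖ / 2)) ^ (-p)) := by
    intro b hb
    have h2 : ‖c - c'‖ ≤ ‖c - b‖ + ‖c' - b‖ := by
      calc ‖c - c'‖ = ‖(c - b) - (c' - b)‖ := by congr 1; ring
        _ ≤ _ := norm_sub_le _ _
    have h3 : ∃ e, (derivative T).eval e = 0 ∧ ‖c - c'‖ / 2 ≤ ‖e - b‖ := by
      rcases le_total (‖c - c'‖ / 2) ‖c - b‖ with h | h
      · exact ⟨c, hc, h⟩
      · exact ⟨c', hc', by linarith⟩
    obtain ⟨e, he1, he2⟩ := h3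
    refine (crit_area hd hT hb he1).2.trans ?_
    rw [← hx, ← hy, ← hp]
    apply ENNReal.ofReal_le_ofReal
    have h4 : (1 + x * ‖e - b‖) ^ (-p) ≤ (1 + x * (‖c - c'‖ / 2)) ^ (-p) := by
      apply Real.rpow_le_rpow_of_nonpos (by positivity) (by gcongr) (by linarith)
    gcongr
  refine (union_bound hd hT h1).trans ?_
  rw [← hx, ← hy, ← hp]
  apply ENNReal.ofReal_le_ofReal
  have h5 : (1 + x * (‖c - c'‖ / 2)) ^ (-p) ≤ 4 * (1 + x * ‖c - c'‖) ^ (-p) := by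
    have h6 : (1 + x * (‖c - c'‖ / 2)) ^ (-p) ≤ ((1 + x * ‖c - c'‖) / 2) ^ (-p) := by
      apply Real.rpow_le_rpow_of_nonpos (by positivity) _ (by linarith)
      have : 0 ≤ x * ‖c - c'‖ := by positivity
      linarith
    refine h6.trans ?_
    rw [Real.div_rpow (by positivity) (by norm_num), div_eq_mul_inv, ← Real.rpow_neg (by norm_num),
      neg_neg, mul_comm]
    apply mul_le_mul_of_nonneg_right _ (by positivity)
    calc (2 : ℝ) ^ p ≤ 2 ^ (2 : ℝ) := Real.rpow_le_rpow_of_exponent_le (by norm_num) hp2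
      _ = 4 := by norm_num
  calc ((d : ℝ) - 1) * (Cd d * y * (1 + x * (‖c - c'‖ / 2)) ^ (-p)) ≤
        ((d : ℝ) - 1) * (Cd d * y * (4 * (1 + x * ‖c - c'‖) ^ (-p))) := by gcongr
    _ = _ := by ring

/-- From areas to distances. -/
lemma dist_of_area {M : Set ℂ} {B r : ℝ} (hr : 0 < r) (hB : B < r ^ 2 * Real.pi)
    (h : volume M ≤ ENNReal.ofReal B) (t₀ : ℂ) : ∃ t : ℂ, ‖t - t₀‖ < r ∧ t ∉ M := by
  by_contra hcon
  push Not at hcon
  have h1 : ball t₀ r ⊆ M := by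
    intro t ht
    rw [mem_ball, dist_eq_norm] at ht
    exact hcon t ht
  have h2 := (measure_mono h1).trans h
  rw [Complex.volume_ball, ← ENNReal.ofReal_pow hr.le,
    show (NNReal.pi : ℝ≥0∞) = ENNReal.ofReal Real.pi from by
      rw [← NNReal.coe_real_pi, ENNReal.ofReal_coe_nnreal],
    ← ENNReal.ofReal_mul (by positivity)] at h2
  rcases le_or_gt B 0 with h3 | h3
  · rw [ENNReal.ofReal_of_nonpos h3] at h2
    have h4 : ENNReal.ofReal (r ^ 2 * Real.pi) = 0 := le_antisymm h2 bot_le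
    rw [ENNReal.ofReal_eq_zero] at h4
    have := Real.pi_pos
    have : 0 < r ^ 2 * Real.pi := by positivity
    linarith
  · rw [ENNReal.ofReal_le_ofReal_iff h3.le] at h2
    linarith

end Pool.Agent.K4H46.TF
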