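import Pool.Agent.K4H46.TF.Ref

set_option autoImplicit false

open Filter Topology Polynomial MeasureTheory Metric
open scoped ENNReal

namespace Pool.Agent.K4H46.TF

/-- The coefficients of a polynomial with critical points in a disc. -/
lemma coeff_bound {Q : ℂ[X]} {d : ℕ} {S : ℝ} (hd : 2 ≤ d) (hm : Q.Monic) (hdeg : Q.natDegree = d)
    (hr : ∀ w, (derivative Q).eval w = 0 → ‖w‖ ≤ S) (k : ℕ) (hk : 1 ≤ k) :
    ‖Q.coeff k‖ ≤ S ^ (d - k) * d.choose k := by
  have hdC : (d : ℂ) ≠ 0 := by exact_mod_cast (show d ≠ 0 by omega)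
  have hdR : (0 : ℝ) < d := by exact_mod_cast (show 0 < d by omega)
  obtain ⟨P, hP⟩ : ∃ P, P = C ((d : ℂ)⁻¹) * derivative Q := ⟨_, rfl⟩
  have hnd : (derivative Q).natDegree = d - 1 := by rw [natDegree_derivative, hdeg]
  have hlc : (derivative Q).leadingCoeff = d := by
    unfold leadingCoeff
    rw [hnd, coeff_derivative, show d - 1 + 1 = Q.natDegree by omega, hm.coeff_natDegree, one_mul]
    push_cast [Nat.cast_sub (show 1 ≤ d by omega)]
    ring
  have hPm : P.Monic := by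
    unfold Monic
    rw [hP, leadingCoeff_mul, leadingCoeff_C, hlc, inv_mul_cancel₀ hdC]
  have hPn : P.natDegree = d - 1 := by
    rw [hP, natDegree_C_mul (inv_ne_zero hdC), hnd]
  obtain ⟨i, rfl⟩ : ∃ i, k = i + 1 := ⟨k - 1, by omega⟩
  have h1 := coeff_le_of_roots_le (p := P) (f := RingHom.id ℂ) (B := S) i hPm
    (by rw [Polynomial.map_id]; exact IsAlgClosed.splits P) (by
      rw [Polynomial.map_id]
      intro z hz
      apply hr
      have h2 := (mem_roots hPm.ne_zero).1 hz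
      rw [IsRoot.def, hP, eval_mul, eval_C] at h2
      exact (mul_eq_zero.1 h2).resolve_left (inv_ne_zero hdC))
  rw [Polynomial.map_id, hPn] at h1
  have h2 : P.coeff i = (d : ℂ)⁻¹ * (Q.coeff (i + 1) * (i + 1)) := by
    rw [hP, coeff_C_mul, coeff_derivative]
  have h3 : ‖P.coeff i‖ = (d : ℝ)⁻¹ * (‖Q.coeff (i + 1)‖ * (i + 1)) := by
    rw [h2, norm_mul, norm_mul, norm_inv, Complex.norm_natCast]
    congr 2
    have : ((i : ℂ) + 1) = ((i + 1 : ℕ) : ℂ) := by push_cast; ring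
    rw [this, Complex.norm_natCast]; push_cast; ring
  rw [h3] at h1
  have h4 : ((d : ℝ)) * ((d - 1).choose i : ℕ) = (d.choose (i + 1) : ℕ) * ((i : ℝ) + 1) := by
    have := Nat.add_one_mul_choose_eq (d - 1) i
    rw [show d - 1 + 1 = d by omega] at this
    exact_mod_cast this
  have h5 : ‖Q.coeff (i + 1)‖ * (i + 1) ≤ S ^ (d - 1 - i) * (d.choose (i + 1) : ℕ) * ((i : ℝ) + 1) := by
    calc ‖Q.coeff (i + 1)‖ * (i + 1) = d * ((d : ℝ)⁻¹ * (‖Q.coeff (i + 1)‖ * (i + 1))) := by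
          field_simp
      _ ≤ d * (S ^ (d - 1 - i) * ((d - 1).choose i : ℕ)) := by gcongr
      _ = S ^ (d - 1 - i) * (d * ((d - 1).choose i : ℕ)) := by ring
      _ = _ := by rw [h4]; ring
  have h6 := le_of_mul_le_mul_right h5 (by positivity : (0 : ℝ) < (i : ℝ) + 1)
  rwa [show d - (i + 1) = d - 1 - i by omega]

/-- The normalised polynomial. -/
noncomputable def nq (T : ℂ[X]) (c κ : ℂ) : ℂ[X] :=
  C κ * (T.comp (C κ⁻¹ * X + C c) - C (T.eval c))

lemma nq_eval (T : ℂ[X]) (c κ z : ℂ) :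
    (nq T c κ).eval z = κ * (T.eval (κ⁻¹ * z + c) - T.eval c) := by
  simp [nq]

lemma nq_deriv {T : ℂ[X]} {c κ : ℂ} (hκ : κ ≠ 0) (z : ℂ) :
    (derivative (nq T c κ)).eval z = (derivative T).eval (κ⁻¹ * z + c) := by
  unfold nq
  rw [derivative_C_mul, derivative_sub, derivative_C, sub_zero, derivative_comp]
  simp only [eval_mul, eval_C, eval_comp, derivative_add, derivative_C_mul, derivative_X,
    derivative_C, mul_one, add_zero, eval_add, eval_X]
  field_simp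

lemma nq_spec {T : ℂ[X]} {d : ℕ} {c κ : ℂ} (hd : 2 ≤ d) (hT : T.natDegree = d)
    (hκ : κ ^ (d - 1) = T.leadingCoeff) (hκ0 : κ ≠ 0) :
    (nq T c κ).Monic ∧ (nq T c κ).natDegree = d := by
  have hL1 : (C κ⁻¹ * X + C c : ℂ[X]).natDegree = 1 :=
    natDegree_linear (inv_ne_zero hκ0)
  have hL2 : (C κ⁻¹ * X + C c : ℂ[X]).leadingCoeff = κ⁻¹ :=
    leadingCoeff_linear (inv_ne_zero hκ0)
  have h1 : (T.comp (C κ⁻¹ * X + C c)).natDegree = d := by
    rw [natDegree_comp, hL1, hT, mul_one]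
  have h2 : (T.comp (C κ⁻¹ * X + C c)).leadingCoeff = κ ^ (d - 1) * κ⁻¹ ^ d := by
    rw [leadingCoeff_comp (by rw [hL1]; exact one_ne_zero), hL2, hT, hκ]
  have h3 : (C (T.eval c) : ℂ[X]).natDegree < (T.comp (C κ⁻¹ * X + C c)).natDegree := by
    rw [natDegree_C, h1]; omega
  have h4 : (T.comp (C κ⁻¹ * X + C c) - C (T.eval c)).natDegree = d := by
    rw [natDegree_sub_eq_left_of_natDegree_lt h3, h1]
  have h5 : (T.comp (C κ⁻¹ * X + C c) - C (T.eval c)).leadingCoeff = κ ^ (d - 1) * κ⁻¹ ^ d := by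
    rw [leadingCoeff_sub_of_degree_lt (degree_lt_degree h3), h2]
  constructor
  · unfold Monic nq
    rw [leadingCoeff_mul, leadingCoeff_C, h5, ← mul_assoc, ← pow_succ', show d - 1 + 1 = d by omega,
      ← mul_pow, mul_inv_cancel₀ hκ0, one_pow]
  · unfold nq
    rw [natDegree_C_mul hκ0, h4]

lemma nq_nrm {T : ℂ[X]} {d : ℕ} {c κ : ℂ} {S : ℝ} (hd : 2 ≤ d) (hT : T.natDegree = d)
    (hκ : κ ^ (d - 1) = T.leadingCoeff) (hκ0 : κ ≠ 0) (hS : 0 ≤ S)
    (hr : ∀ w, (derivative T).eval w = 0 → ‖κ‖ * ‖w - c‖ ≤ S) : Nrm d S (nq T c κ) := by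
  obtain ⟨h1, h2⟩ := nq_spec (c := c) hd hT hκ hκ0
  have h0 : (nq T c κ).eval 0 = 0 := by rw [nq_eval]; simp
  refine ⟨hd, hS, h1, h2, h0, fun k => ?_⟩
  rcases Nat.eq_zero_or_pos k with rfl | hk
  · rw [coeff_zero_eq_eval_zero, h0, norm_zero]
    positivity
  apply coeff_bound hd h1 h2 _ k hk
  intro w hw
  rw [nq_deriv hκ0] at hw
  have h3 := hr _ hw
  rwa [add_sub_cancel_right, ← norm_mul, mul_inv_cancel_left₀ hκ0] at h3

/-- The orbit of `z` under `T` escapes. -/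
def Esc (T : ℂ[X]) (z : ℂ) : Prop :=
  Tendsto (fun k : ℕ => ‖(fun w : ℂ => T.eval w)^[k] z‖) atTop atTop

lemma conj_iter {T : ℂ[X]} {c κ t : ℂ} (hκ : κ ≠ 0) (n : ℕ) :
    (fun w : ℂ => (nq T c κ + C (κ * (T.eval c + t - c))).eval w)^[n] 0 =
      κ * ((fun w : ℂ => (T + C t).eval w)^[n] c - c) := by
  induction n with
  | zero => simp
  | succ n ih =>
    rw [Function.iterate_succ_apply', Function.iterate_succ_apply', ih]
    simp only [eval_add, eval_C, nq_eval]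
    rw [inv_mul_cancel_left₀ hκ, sub_add_cancel]
    ring

lemma mem_ne {T : ℂ[X]} {c κ t : ℂ} (hκ : κ ≠ 0) (h : ¬ Esc (T + C t) c) :
    κ * t + κ * (T.eval c - c) ∈ NE (nq T c κ) := by
  intro hcon
  apply h
  have e : κ * t + κ * (T.eval c - c) = κ * (T.eval c + t - c) := by ring
  rw [e] at hcon
  simp only [conj_iter hκ] at hcon
  unfold Esc
  have h1 : Tendsto (fun k : ℕ => ‖κ‖⁻¹ *
      ‖κ * ((fun w : ℂ => (T + C t).eval w)^[k] c - c)‖ - ‖c‖) atTop atTop := by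
    apply tendsto_atTop_add_const_right
    exact Tendsto.const_mul_atTop (by positivity) hcon
  refine tendsto_atTop_mono (fun k => ?_) h1
  rw [norm_mul, inv_mul_cancel_left₀ (norm_ne_zero_iff.2 hκ)]
  have := norm_sub_le ((fun w : ℂ => (T + C t).eval w)^[k] c) c
  linarith

/-- The area of the preimage of a set under an affine map. -/
lemma area_affine {κ : ℂ} (hκ : κ ≠ 0) (b : ℂ) (E : Set ℂ) :
    volume ((fun t => κ * t + b) ⁻¹' E) = ENNReal.ofReal ((‖κ‖ ^ 2)⁻¹) * volume E := by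
  have h1 : (fun t => κ * t + b) ⁻¹' E =
      (LinearMap.mulLeft ℝ κ) ⁻¹' ((fun x => x + b) ⁻¹' E) := rfl
  have hdet : LinearMap.det (LinearMap.mulLeft ℝ κ) = ‖κ‖ ^ 2 := by
    have h2 := Algebra.norm_apply ℝ κ
    rw [Algebra.norm_complex_apply, Complex.normSq_eq_norm_sq] at h2
    exact h2.symm
  rw [h1, Measure.addHaar_preimage_linearMap volume (by rw [hdet]; positivity), hdet,
    measure_preimage_add_right, abs_of_nonneg (by positivity)]

end Pool.Agent.K4H46.TF
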