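import Pool.Agent.K4H46.TF.Bd
import Pool.Agent.R341.Rou

set_option autoImplicit false

open Filter Topology Polynomial MeasureTheory Metric
open scoped ENNReal

namespace Pool.Agent.K4H46.TF

open Classical in
/-- The zeros of `P` in the open disc of centre `ζ` and radius `ρ`. -/
noncomputable def zin (P : ℂ[X]) (ζ : ℂ) (ρ : ℝ) : Multiset ℂ := P.roots.filter fun a => ‖a - ζ‖ < ρ

lemma roots_shift (P : ℂ[X]) (ζ : ℂ) :
    (P.comp (X + C ζ)).roots = P.roots.map fun a => a - ζ := by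
  have h := roots_comp_C_mul_X_add_C P 1 ζ isUnit_one
  rw [C_1, one_mul] at h
  rw [h]
  congr 1
  ext x
  simp

lemma zin_card (P : ℂ[X]) (ζ : ℂ) (ρ : ℝ) :
    (zin P ζ ρ).card = R341.Rou.nz ρ (P.comp (X + C ζ)) := by
  unfold zin R341.Rou.nz
  rw [roots_shift, Multiset.filter_map, Multiset.card_map]
  rfl

lemma nz_pow {ρ : ℝ} {f : ℂ[X]} (hf : f ≠ 0) (k : ℕ) :
    R341.Rou.nz ρ (f ^ k) = k * R341.Rou.nz ρ f := by
  induction k with
  | zero => simp [R341.Rou.nz]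
  | succ k ih =>
    rw [pow_succ, R341.Rou.nz_mul (mul_ne_zero (pow_ne_zero k hf) hf), ih]
    ring

/-- Growth of the critical orbit on a circle where the second iterate is large. -/
lemma grow {d : ℕ} {S : ℝ} {Q : ℂ[X]} (h : Nrm d S Q) {v : ℂ} {n : ℕ} (hn : 1 ≤ n)
    (h1 : Rad d S ≤ ‖(G Q 1).eval v‖) (h2 : ‖v‖ ≤ ‖(G Q 1).eval v‖) :
    ‖(G Q 1).eval v‖ ≤ ‖(G Q n).eval v‖ := by
  induction n, hn using Nat.le_induction with
  | base => exact le_rfl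
  | succ n hn ih =>
    rw [G_succ_eval Q v n]
    have hR := rad_ge d S
    have h3 := esc_step h ((hR.1.trans h1).trans ih) ((hR.2.trans h1).trans ih) (h2.trans ih)
    have h4 : 0 ≤ ‖(G Q n).eval v‖ := norm_nonneg _
    linarith

/-- The number of zeros of the iterates in a disc bounded by a good circle. -/
theorem count {d : ℕ} {S : ℝ} {Q : ℂ[X]} (h : Nrm d S Q) {ζ : ℂ} {ρ η : ℝ} (hρ : 0 < ρ)
    (hη : 0 < η) (h0 : (G Q 1).eval ζ = 0)
    (hgap : ∀ a ∈ (G Q 1).roots, η ≤ |‖a - ζ‖ - ρ|) (hb1 : Rad d S ≤ η ^ d)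
    (hb2 : ‖ζ‖ + ρ ≤ η ^ d) (n : ℕ) (hn : 1 ≤ n) :
    d ^ (n - 1) ≤ (zin (G Q n) ζ ρ).card := by
  have hd := h.hd
  have hc1 : ∀ w : ℂ, ‖w‖ = ρ → η ^ d ≤ ‖(G Q 1).eval (w + ζ)‖ := by
    intro w hw
    obtain ⟨hm, hdn⟩ := G_monic hd h.mon h.deg 1
    rw [pow_one] at hdn
    rw [norm_eval_eq hm, ← hdn, ← card_roots_eq]
    apply prod_ge_pow hη
    intro a ha
    refine (hgap a ha).trans ?_
    have e : a - ζ = w - (w + ζ - a) := by ring
    rw [← hw, abs_le]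
    constructor
    · have h3 : ‖w‖ ≤ ‖w + ζ - a‖ + ‖a - ζ‖ := by
        calc ‖w‖ = ‖(w + ζ - a) + (a - ζ)‖ := by congr 1; ring
          _ ≤ _ := norm_add_le _ _
      linarith
    · have h3 : ‖a - ζ‖ ≤ ‖w‖ + ‖w + ζ - a‖ := by rw [e]; exact norm_sub_le _ _
      linarith
  have hne : ∀ n, (G Q n).comp (X + C ζ) ≠ 0 := fun n =>
    comp_X_add_C_ne_zero_iff.2 (G_monic hd h.mon h.deg n).1.ne_zero
  rw [zin_card]
  induction n, hn using Nat.le_induction with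
  | base =>
    rw [Nat.sub_self, pow_zero]
    exact R341.Rou.nz_pos hρ (hne 1) (by simpa using h0)
  | succ n hn ih =>
    have key : R341.Rou.nz ρ (((G Q n).comp (X + C ζ)) ^ d) =
        R341.Rou.nz ρ ((G Q (n + 1)).comp (X + C ζ)) := by
      apply R341.Rou.rouche hρ
      intro w hw
      have e1 : (((G Q n).comp (X + C ζ)) ^ d).eval w = (G Q n).eval (w + ζ) ^ d := by simp
      have e2 : ((G Q (n + 1)).comp (X + C ζ)).eval w =
          Q.eval ((G Q n).eval (w + ζ)) + (w + ζ) := by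
        rw [eval_comp]
        simp only [eval_add, eval_X, eval_C]
        exact G_succ_eval Q (w + ζ) n
      obtain ⟨v, hv⟩ : ∃ v, v = w + ζ := ⟨_, rfl⟩
      rw [e1, e2, ← hv]
      have h1 := hc1 w hw
      rw [← hv] at h1
      have hvn : ‖v‖ ≤ η ^ d := by
        rw [hv]
        refine (norm_add_le _ _).trans ?_
        rw [hw]; linarith
      have h2 := grow h hn (hb1.trans h1) (hvn.trans h1)
      obtain ⟨g, hg⟩ : ∃ g, g = (G Q n).eval v := ⟨_, rfl⟩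
      rw [← hg] at h2 ⊢
      have hR := rad_ge d S
      have hg1 : Rad d S ≤ ‖g‖ := (hb1.trans h1).trans h2
      have hg6 : 6 ≤ ‖g‖ := hR.2.trans hg1
      have hgv : ‖v‖ ≤ ‖g‖ := (hvn.trans h1).trans h2
      have h3 := eval_ge h (z := g) (by linarith) (hR.1.trans hg1)
      have h6 : 6 * ‖g‖ ≤ ‖g‖ ^ d := by
        calc 6 * ‖g‖ ≤ ‖g‖ * ‖g‖ := by gcongr
          _ = ‖g‖ ^ 2 := by ring
          _ ≤ ‖g‖ ^ d := pow_le_pow_right₀ (by linarith) hd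
      calc ‖g ^ d - (Q.eval g + v)‖ = ‖-(Q.eval g - g ^ d) - v‖ := by congr 1; ring
        _ ≤ ‖Q.eval g - g ^ d‖ + ‖v‖ := by
            refine (norm_sub_le _ _).trans ?_
            rw [norm_neg]
        _ < ‖g ^ d‖ := by rw [norm_pow]; linarith
    rw [← key, nz_pow (hne n)]
    calc d ^ (n + 1 - 1) = d * d ^ (n - 1) := by
          rw [← pow_succ']; congr 1; omega
      _ ≤ _ := Nat.mul_le_mul_left d ih

lemma zin_le (P : ℂ[X]) (ζ : ℂ) (ρ : ℝ) : zin P ζ ρ ≤ P.roots := Multiset.filter_le _ _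

lemma zin_mem {P : ℂ[X]} {ζ a : ℂ} {ρ : ℝ} (h : a ∈ zin P ζ ρ) : ‖a - ζ‖ < ρ :=
  (Multiset.mem_filter.1 h).2

/-- A good circle exists. -/
lemma good_radius (s : Multiset ℂ) (ζ : ℂ) {η : ℝ} (hη : 0 < η) :
    ∃ ρ : ℝ, 0 < ρ ∧ ρ ≤ (2 * s.card + 1) * η ∧ ∀ a ∈ s, η ≤ |‖a - ζ‖ - ρ| := by
  classical
  by_contra hcon
  push Not at hcon
  have h1 : ∀ j : Fin (s.card + 1), ∃ a ∈ s.toFinset, |‖a - ζ‖ - (2 * (j : ℕ) + 1) * η| < η := by
    intro j
    have hj : ((j : ℕ) : ℝ) ≤ s.card := by exact_mod_cast Nat.lt_succ_iff.1 j.2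
    obtain ⟨a, ha, hb⟩ := hcon ((2 * (j : ℕ) + 1) * η) (by positivity) (by gcongr)
    exact ⟨a, Multiset.mem_toFinset.2 ha, hb⟩
  choose f hf1 hf2 using h1
  have hcard : s.toFinset.card < (Finset.univ : Finset (Fin (s.card + 1))).card := by
    rw [Finset.card_univ, Fintype.card_fin]
    exact Nat.lt_succ_of_le (Multiset.toFinset_card_le s)
  obtain ⟨i, -, j, -, hij, he⟩ := Finset.exists_ne_map_eq_of_card_lt_of_maps_to hcard
    (f := f) (fun i _ => hf1 i)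
  have h2 := hf2 i
  have h3 := hf2 j
  rw [← he] at h3
  have h4 : |((2 * (i : ℕ) + 1) * η) - ((2 * (j : ℕ) + 1) * η)| < 2 * η := by
    have e : ((2 * ((i : ℕ) : ℝ) + 1) * η) - ((2 * (j : ℕ) + 1) * η) =
      (‖f i - ζ‖ - (2 * (j : ℕ) + 1) * η) - (‖f i - ζ‖ - (2 * (i : ℕ) + 1) * η) := by ring
    rw [e]
    refine (abs_sub _ _).trans_lt ?_
    linarith
  have h5 : ((2 * ((i : ℕ) : ℝ) + 1) * η) - ((2 * (j : ℕ) + 1) * η) =
      (2 * η) * (((i : ℕ) : ℝ) - (j : ℕ)) := by ring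
  rw [h5, abs_mul, abs_of_pos (by positivity : (0 : ℝ) < 2 * η)] at h4
  have h6 : |((i : ℕ) : ℝ) - (j : ℕ)| < 1 := by
    by_contra h7
    push Not at h7
    nlinarith
  have h7 : |((i : ℕ) : ℤ) - (j : ℕ)| < 1 := by exact_mod_cast h6
  rw [Int.abs_lt_one_iff] at h7
  apply hij
  apply Fin.ext
  omega

end Pool.Agent.K4H46.TF
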