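import Pool.Agent.K4H46.TF.Rc

set_option autoImplicit false

open Filter Topology Polynomial MeasureTheory Metric
open scoped ENNReal

namespace Pool.Agent.K4H46.TF

lemma G_one (Q : ℂ[X]) : G Q 1 = Q + X := by simp [G]

/-- A second zero far from the first. -/
lemma far_root {d : ℕ} {S : ℝ} {Q : ℂ[X]} (h : Nrm d S Q) {γ : ℂ} (hγ : (derivative Q).eval γ = 0)
    (hS : ‖γ‖ = S) (h2 : 2 ≤ S) : ∃ ζ : ℂ, (G Q 1).eval ζ = 0 ∧ S / 2 < ‖ζ‖ := by
  by_contra hcon
  push Not at hcon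
  obtain ⟨P, hP⟩ : ∃ P, P = G Q 1 := ⟨_, rfl⟩
  rw [← hP] at hcon
  obtain ⟨hm, hdn⟩ := G_monic h.hd h.mon h.deg 1
  rw [← hP] at hm hdn
  rw [pow_one] at hdn
  have hd := h.hd
  have hdeg : 0 < P.degree := by
    rw [← natDegree_pos_iff_degree_pos, hdn]; omega
  have hsub : (derivative P).rootSet ℂ ⊆ closedBall 0 (S / 2) := by
    refine (rootSet_derivative_subset_convexHull_rootSet hdeg).trans ?_
    apply convexHull_min _ (convex_closedBall 0 (S / 2))
    intro z hz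
    rw [mem_rootSet, coe_aeval_eq_eval] at hz
    rw [mem_closedBall_zero_iff]
    exact hcon z hz.2
  have hnd : (derivative P).natDegree = d - 1 := by
    rw [natDegree_derivative, hdn]
  have hlc : (derivative P).leadingCoeff = d := by
    unfold leadingCoeff
    rw [hnd, coeff_derivative, show d - 1 + 1 = P.natDegree by omega, hm.coeff_natDegree, one_mul]
    push_cast [Nat.cast_sub (show 1 ≤ d by omega)]
    ring
  have hne : derivative P ≠ 0 := by
    intro h0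
    rw [h0, leadingCoeff_zero] at hlc
    have : (d : ℂ) = 0 := hlc.symm
    rw [Nat.cast_eq_zero] at this
    omega
  have he : (derivative P).eval γ = 1 := by
    rw [hP, G_one, derivative_add, derivative_X, eval_add, hγ, eval_one, zero_add]
  have h3 := (IsAlgClosed.splits (derivative P)).eval_eq_prod_roots γ
  rw [he, hlc] at h3
  have h4 : ‖((derivative P).roots.map (fun a => γ - a)).prod‖ =
      ((derivative P).roots.map (fun a => ‖γ - a‖)).prod := by
    have h2 : ‖((derivative P).roots.map (fun a => γ - a)).prod‖ =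
        (((derivative P).roots.map (fun a => γ - a)).map (‖·‖)).prod :=
      map_multiset_prod (normHom : ℂ →*₀ ℝ) _
    rw [h2, Multiset.map_map]
    rfl
  have h5 : (1 : ℝ) ^ (derivative P).roots.card ≤
      ((derivative P).roots.map (fun a => ‖γ - a‖)).prod := by
    apply prod_ge_pow one_pos
    intro a ha
    have h6 : a ∈ (derivative P).rootSet ℂ := by
      rw [mem_rootSet, coe_aeval_eq_eval]
      exact ⟨hne, (mem_roots hne).1 ha⟩
    have h7 := hsub h6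
    rw [mem_closedBall_zero_iff] at h7
    have h8 : ‖γ‖ ≤ ‖γ - a‖ + ‖a‖ := by
      calc ‖γ‖ = ‖(γ - a) + a‖ := by congr 1; ring
        _ ≤ _ := norm_add_le _ _
    rw [hS] at h8
    linarith
  rw [one_pow, ← h4] at h5
  have h9 : (1 : ℝ) = d * ‖((derivative P).roots.map (fun a => γ - a)).prod‖ := by
    have := congrArg norm h3
    rw [norm_one, norm_mul, Complex.norm_natCast] at this
    exact this
  have h10 : (2 : ℝ) ≤ d := by exact_mod_cast hd
  nlinarith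

lemma root_small {d : ℕ} {S : ℝ} {Q : ℂ[X]} (h : Nrm d S Q) {ζ : ℂ}
    (h0 : (G Q 1).eval ζ = 0) : ‖ζ‖ ≤ Rad d S := by
  by_contra hcon
  push Not at hcon
  have hR := rad_ge d S
  have h1 := esc_step h (hR.1.trans hcon.le) (hR.2.trans hcon.le) (le_refl ‖ζ‖)
  have h2 : Q.eval ζ + ζ = 0 := by
    rw [G_one] at h0
    simpa using h0
  rw [h2, norm_zero] at h1
  linarith [hR.2]

/-- One of the two pieces. -/
lemma piece {d : ℕ} {S : ℝ} {Q : ℂ[X]} (h : Nrm d S Q) (h2 : 2 ≤ S)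
    (hbig : 4 * d * S ≤ (S / (16 * (d + 1))) ^ d) {ζ : ℂ} (h0 : (G Q 1).eval ζ = 0) :
    volume (Es Q (Rad d S) ∩ {v : ℂ | S / 4 ≤ ‖v - ζ‖}) ≤
      ENNReal.ofReal (4 * Real.pi * ((S / 8) ^ (-(1 / ((d : ℝ) - 1)))) ^ 2) := by
  have hd := h.hd
  have hd' : (2 : ℝ) ≤ d := by exact_mod_cast hd
  obtain ⟨η, hη⟩ : ∃ η, η = S / (16 * ((d : ℝ) + 1)) := ⟨_, rfl⟩
  rw [← hη] at hbig
  have hη0 : 0 < η := by rw [hη]; positivity
  have hηS : 16 * ((d : ℝ) + 1) * η = S := by rw [hη]; field_simp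
  obtain ⟨ρ, hρ1, hρ2, hρ3⟩ := good_radius (G Q 1).roots ζ hη0
  have hcard : (G Q 1).roots.card = d := by
    rw [card_roots_eq, (G_monic hd h.mon h.deg 1).2, pow_one]
  rw [hcard] at hρ2
  have hρS : ρ + S / 8 ≤ S / 4 := by nlinarith
  have hRad : Rad d S = 3 * d * S := by
    unfold Rad
    apply max_eq_left
    nlinarith
  have hζ := root_small h h0
  rw [hRad] at hζ
  have hR0 : 0 < Rad d S := by linarith [(rad_ge d S).2]
  apply area_two hd h.mon h.deg hR0 (by linarith) Set.inter_subset_left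
  · exact (es_closed Q _).measurableSet.inter
      (isClosed_le continuous_const (by fun_prop)).measurableSet
  intro n hn
  refine ⟨zin (G Q n) ζ ρ, zin_le _ _ _, count h hρ1 hη0 h0 hρ3 ?_ ?_ n hn, ?_⟩
  · rw [hRad]; nlinarith
  · nlinarith
  · intro z hz a ha
    have h5 := zin_mem ha
    have h6 : S / 4 ≤ ‖z - ζ‖ := hz.2
    have h7 : ‖z - ζ‖ ≤ ‖z - a‖ + ‖a - ζ‖ := by
      calc ‖z - ζ‖ = ‖(z - a) + (a - ζ)‖ := by congr 1; ring
        _ ≤ _ := norm_add_le _ _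
    linarith

theorem area_far {d : ℕ} {S : ℝ} {Q : ℂ[X]} (h : Nrm d S Q) {γ : ℂ}
    (hγ : (derivative Q).eval γ = 0) (hS : ‖γ‖ = S) (h2 : 2 ≤ S)
    (hbig : 4 * d * S ≤ (S / (16 * (d + 1))) ^ d) :
    volume (Es Q (Rad d S)) ≤
      ENNReal.ofReal (8 * Real.pi * ((S / 8) ^ (-(1 / ((d : ℝ) - 1)))) ^ 2) := by
  obtain ⟨ζ, hζ0, hζ⟩ := far_root h hγ hS h2
  have h00 : (G Q 1).eval 0 = 0 := by rw [G_one]; simp [h.z0]
  have hsub : Es Q (Rad d S) ⊆ (Es Q (Rad d S) ∩ {v : ℂ | S / 4 ≤ ‖v - 0‖}) ∪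
      (Es Q (Rad d S) ∩ {v : ℂ | S / 4 ≤ ‖v - ζ‖}) := by
    intro v hv
    rcases le_total (S / 4) ‖v‖ with h3 | h3
    · left
      refine ⟨hv, ?_⟩
      show S / 4 ≤ ‖v - 0‖
      rwa [sub_zero]
    · right
      refine ⟨hv, ?_⟩
      show S / 4 ≤ ‖v - ζ‖
      have h4 : ‖ζ‖ ≤ ‖v - ζ‖ + ‖v‖ := by
        calc ‖ζ‖ = ‖v - (v - ζ)‖ := by congr 1; ring
          _ ≤ ‖v‖ + ‖v - ζ‖ := norm_sub_le _ _
          _ = _ := add_comm _ _
      linarith
  calc volume (Es Q (Rad d S)) ≤ _ := measure_mono hsub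
    _ ≤ _ := measure_union_le _ _
    _ ≤ ENNReal.ofReal (4 * Real.pi * ((S / 8) ^ (-(1 / ((d : ℝ) - 1)))) ^ 2) +
        ENNReal.ofReal (4 * Real.pi * ((S / 8) ^ (-(1 / ((d : ℝ) - 1)))) ^ 2) :=
      add_le_add (piece h h2 hbig h00) (piece h h2 hbig hζ0)
    _ = _ := by
      rw [← ENNReal.ofReal_add (by positivity) (by positivity)]
      congr 1; ring

/-- The constant of the main bound. -/
noncomputable def Cd (d : ℕ) : ℝ :=
  8 * Real.pi * (16 * (1 + 4 * d * (16 * (d + 1)) ^ d)) ^ (2 / ((d : ℝ) - 1))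

lemma Cd_pos {d : ℕ} : 0 < Cd d := by
  have := Real.pi_pos
  unfold Cd; positivity

theorem area_all {d : ℕ} {S : ℝ} {Q : ℂ[X]} (h : Nrm d S Q) {γ : ℂ}
    (hγ : (derivative Q).eval γ = 0) (hS : ‖γ‖ = S) :
    volume (Es Q (Rad d S)) ≤ ENNReal.ofReal (Cd d * (1 + S) ^ (-(2 / ((d : ℝ) - 1)))) := by
  have hd := h.hd
  have hd' : (2 : ℝ) ≤ d := by exact_mod_cast hd
  have hS0 := h.hS
  have hpi := Real.pi_pos
  obtain ⟨S0, hS0'⟩ : ∃ x : ℝ, x = 4 * d * (16 * (d + 1)) ^ d := ⟨_, rfl⟩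
  obtain ⟨p, hp⟩ : ∃ x : ℝ, x = 2 / ((d : ℝ) - 1) := ⟨_, rfl⟩
  have hp0 : 0 < p := by rw [hp]; apply div_pos (by norm_num); linarith
  have hbase : (1 : ℝ) ≤ (16 * (d + 1)) ^ d := one_le_pow₀ (by linarith)
  have hS01 : 8 ≤ S0 := by
    rw [hS0']; nlinarith
  have hC : Cd d * (1 + S) ^ (-(2 / ((d : ℝ) - 1))) =
      8 * Real.pi * (16 * (1 + S0) / (1 + S)) ^ p := by
    unfold Cd
    rw [← hS0', ← hp, Real.rpow_neg (by positivity), Real.div_rpow (by positivity) (by positivity)]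
    ring
  rw [hC]
  rcases le_total S S0 with h1 | h1
  · refine (area_one hd h.mon h.deg (R := Rad d S) (by linarith [(rad_ge d S).2])).trans ?_
    apply ENNReal.ofReal_le_ofReal
    have h3 : (1 : ℝ) ≤ (16 * (1 + S0) / (1 + S)) ^ p := by
      apply Real.one_le_rpow _ hp0.le
      rw [le_div_iff₀ (by positivity)]
      linarith
    nlinarith
  · have hbig : 4 * d * S ≤ (S / (16 * (d + 1))) ^ d := by
      rw [div_pow, le_div_iff₀ (by positivity)]
      calc 4 * d * S * (16 * (d + 1)) ^ d = S0 * S := by rw [hS0']; ring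
        _ ≤ S * S := by gcongr
        _ = S ^ 2 := by ring
        _ ≤ S ^ d := pow_le_pow_right₀ (by linarith) hd
    refine (area_far h hγ hS (by linarith) hbig).trans ?_
    apply ENNReal.ofReal_le_ofReal
    have h4 : ((S / 8) ^ (-(1 / ((d : ℝ) - 1)))) ^ 2 = (8 / S) ^ p := by
      have hS8 : 0 < S / 8 := by linarith
      rw [← Real.rpow_natCast, ← Real.rpow_mul hS8.le,
        show (8 : ℝ) / S = (S / 8)⁻¹ by rw [inv_div], Real.inv_rpow hS8.le,
        ← Real.rpow_neg hS8.le]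
      congr 1
      rw [hp]; push_cast; ring
    rw [h4]
    apply mul_le_mul_of_nonneg_left _ (by positivity)
    apply Real.rpow_le_rpow (by apply div_nonneg <;> linarith) _ hp0.le
    rw [div_le_div_iff₀ (by linarith) (by linarith)]
    nlinarith

end Pool.Agent.K4H46.TF
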